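import Pool.Agent.HW3.Weil

/-!
# Descending induction on the weights
-/

set_option autoImplicit false

open PowerSeries

namespace Pool.Agent.HW3

/-- prime powers which are prime to `N` -/
def Good (N n : ℕ) : Prop := IsPrimePow n ∧ n.Coprime N

lemma good_iff {N n : ℕ} : Good N n ↔ ∃ p k, p.Prime ∧ ¬ p ∣ N ∧ 0 < k ∧ n = p ^ k := by
  constructor
  · rintro ⟨⟨p, k, hp, hk, rfl⟩, hc⟩
    refine ⟨p, k, hp.nat_prime, ?_, hk, rfl⟩
    rw [Nat.coprime_pow_left_iff hk, Nat.Prime.coprime_iff_not_dvd hp.nat_prime] at hc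
    exact hc
  · rintro ⟨p, k, hp, hN, hk, rfl⟩
    exact ⟨hp.isPrimePow.pow hk.ne', Nat.Coprime.pow_left k
      ((Nat.Prime.coprime_iff_not_dvd hp).2 hN)⟩

lemma Good.pos {N n : ℕ} (h : Good N n) : 0 < n := h.1.pos

/-- the `k`-th powers of the Weil numbers at `p`, if `n = p ^ k` -/
noncomputable def alph {J : Type} (A : ℕ → J → ℂ) (j : J) (n : ℕ) : ℂ :=
  A n.minFac j ^ n.factorization n.minFac

lemma alph_pow {J : Type} (A : ℕ → J → ℂ) (j : J) {p k : ℕ} (hp : p.Prime) (hk : 0 < k) :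
    alph A j (p ^ k) = A p j ^ k := by
  unfold alph
  rw [hp.pow_minFac hk.ne', hp.factorization_pow, Finsupp.single_eq_same]

/-- bounds of the coefficients of a family of power series -/
def BS (N : ℕ) (r : ℝ) (G : ℕ → PowerSeries ℂ) : Prop :=
  ∀ m, ∃ C : ℝ, ∀ n, Good N n → ‖coeff m (G n)‖ ≤ C * (n : ℝ) ^ (r * m / 2)

lemma BS.one (N : ℕ) (r : ℝ) : BS N r (fun _ => 1) := by
  intro m
  refine ⟨1, fun n hn => ?_⟩
  rw [coeff_one]
  split_ifs with h
  · subst h; simp
  · rw [norm_zero]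
    have : (0 : ℝ) ≤ n := Nat.cast_nonneg n
    positivity

lemma BS.mul {N : ℕ} {r : ℝ} {G H : ℕ → PowerSeries ℂ} (hG : BS N r G) (hH : BS N r H) :
    BS N r (fun n => G n * H n) := by
  intro m
  choose C hC using hG
  choose D hD using hH
  refine ⟨∑ ij ∈ Finset.HasAntidiagonal.antidiagonal m, |C ij.1| * |D ij.2|, fun n hn => ?_⟩
  have hn0 : (0 : ℝ) < n := by exact_mod_cast hn.pos
  rw [coeff_mul, Finset.sum_mul]
  refine (norm_sum_le _ _).trans (Finset.sum_le_sum fun ij hij => ?_)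
  rw [norm_mul]
  have h1 := (hC ij.1 n hn).trans (mul_le_mul_of_nonneg_right (le_abs_self _)
    (Real.rpow_nonneg hn0.le _))
  have h2 := (hD ij.2 n hn).trans (mul_le_mul_of_nonneg_right (le_abs_self _)
    (Real.rpow_nonneg hn0.le _))
  refine (mul_le_mul h1 h2 (norm_nonneg _) (by positivity)).trans (le_of_eq ?_)
  have e : r * m / 2 = r * ij.1 / 2 + r * ij.2 / 2 := by
    have := Finset.HasAntidiagonal.mem_antidiagonal.1 hij
    rw [← this]; push_cast; ring
  rw [e, Real.rpow_add hn0]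
  ring

lemma BS.prod {N : ℕ} {r : ℝ} {J : Type} (s : Finset J) {G : J → ℕ → PowerSeries ℂ}
    (h : ∀ j ∈ s, BS N r (G j)) : BS N r (fun n => ∏ j ∈ s, G j n) := by
  classical
  induction s using Finset.induction_on with
  | empty => simpa using BS.one N r
  | insert a s ha ih =>
    have h1 := (h a (Finset.mem_insert_self a s)).mul
      (ih fun j hj => h j (Finset.mem_insert_of_mem hj))
    intro m
    obtain ⟨C, hC⟩ := h1 m
    refine ⟨C, fun n hn => ?_⟩
    dsimp only
    rw [Finset.prod_insert ha]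
    exact hC n hn

lemma BS.geo {N : ℕ} {r : ℝ} {a : ℕ → ℂ} (h : ∀ n, Good N n → ‖a n‖ ≤ (n : ℝ) ^ (r / 2)) :
    BS N r (fun n => geo (a n)) := by
  intro m
  refine ⟨1, fun n hn => ?_⟩
  unfold HW3.geo
  rw [coeff_mk, norm_pow, one_mul]
  have hn0 : (0 : ℝ) < n := by exact_mod_cast hn.pos
  refine (pow_le_pow_left₀ (norm_nonneg _) (h n hn) m).trans (le_of_eq ?_)
  rw [← Real.rpow_natCast, ← Real.rpow_mul hn0.le]
  congr 1; ring

lemma BS.lin {N : ℕ} {r : ℝ} {a : ℕ → ℂ} (h : ∀ n, Good N n → ‖a n‖ ≤ (n : ℝ) ^ (r / 2)) :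
    BS N r (fun n => lin (a n)) := by
  intro m
  refine ⟨1, fun n hn => ?_⟩
  have hn0 : (0 : ℝ) < n := by exact_mod_cast hn.pos
  unfold HW3.lin
  rcases m with _ | _ | m
  · simp
  · rw [map_sub, coeff_C_mul, coeff_X, coeff_one]
    simpa using h n hn
  · rw [map_sub, coeff_C_mul, coeff_X, coeff_one]
    simp only [Nat.add_eq_zero_iff, one_ne_zero, and_false, if_false]
    simp only [zero_sub, norm_neg, one_mul]
    rw [if_neg (by omega), mul_zero, norm_zero]
    positivity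

section desc

variable {N : ℕ} {c : ℕ → ℂ} {J : Type} [Fintype J] {wt : J → ℕ} {A : ℕ → J → ℂ}

lemma norm_alph (h : Weil N c wt A) (j : J) {n : ℕ} (hn : Good N n) :
    ‖alph A j n‖ = (n : ℝ) ^ ((wt j : ℝ) / 2) := by
  obtain ⟨p, k, hp, hN, hk, rfl⟩ := good_iff.1 hn
  have hp0 : (0 : ℝ) < p := by exact_mod_cast hp.pos
  rw [alph_pow A j hp hk, norm_pow, h.norm p hp hN j, Nat.cast_pow, ← Real.rpow_natCast,
    ← Real.rpow_natCast, ← Real.rpow_mul hp0.le, ← Real.rpow_mul hp0.le, mul_comm]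

lemma norm_alph_le (h : Weil N c wt A) (j : J) {r : ℝ} (hj : (wt j : ℝ) ≤ r) {n : ℕ}
    (hn : Good N n) : ‖alph A j n‖ ≤ (n : ℝ) ^ (r / 2) := by
  rw [norm_alph h j hn]
  refine Real.rpow_le_rpow_of_exponent_le ?_ (by linarith)
  exact_mod_cast hn.pos

/-- the part of the generating function of weights less than `w` -/
noncomputable def Zw (wt : J → ℕ) (A : ℕ → J → ℂ) (w n : ℕ) : PowerSeries ℂ :=
  ∏ j ∈ Finset.univ.filter (fun j => wt j < w), fac (wt j) (alph A j n)

/-- its inverse -/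
noncomputable def Zi (wt : J → ℕ) (A : ℕ → J → ℂ) (w n : ℕ) : PowerSeries ℂ :=
  ∏ j ∈ Finset.univ.filter (fun j => wt j < w), fac (wt j + 1) (alph A j n)

/-- the polynomial of weight `w` -/
noncomputable def Pw (wt : J → ℕ) (A : ℕ → J → ℂ) (w n : ℕ) : PowerSeries ℂ :=
  ∏ j ∈ Finset.univ.filter (fun j => wt j = w), lin (alph A j n)

lemma fac_mul_fac (w : ℕ) (a : ℂ) : fac w a * fac (w + 1) a = 1 := by
  unfold fac
  by_cases h : Odd w
  · rw [if_pos h, if_neg (Nat.not_odd_iff_even.2 h.add_one), lin_mul_geo]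
  · rw [if_neg h, if_pos ((Nat.not_odd_iff_even.1 h).add_one), mul_comm, lin_mul_geo]

lemma Zw_mul_Zi (w n : ℕ) : Zw wt A w n * Zi wt A w n = 1 := by
  unfold Zw Zi
  rw [← Finset.prod_mul_distrib]
  exact Finset.prod_eq_one fun j _ => fac_mul_fac _ _

lemma filter_succ (w : ℕ) : Finset.univ.filter (fun j => wt j < w + 1) =
    (Finset.univ.filter (fun j => wt j = w)).disjUnion (Finset.univ.filter (fun j => wt j < w))
      (by
        rw [Finset.disjoint_left]
        intro j hj hj'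
        rw [Finset.mem_filter] at hj hj'
        omega) := by
  ext j
  simp only [Finset.mem_filter, Finset.mem_univ, true_and, Finset.mem_disjUnion]
  omega

lemma Zw_succ {w : ℕ} (hw : Odd w) (n : ℕ) : Zw wt A (w + 1) n = Pw wt A w n * Zw wt A w n := by
  unfold Zw Pw
  rw [filter_succ, Finset.prod_disjUnion]
  congr 1
  refine Finset.prod_congr rfl fun j hj => ?_
  rw [(Finset.mem_filter.1 hj).2]
  unfold fac
  rw [if_pos hw]

lemma Zi_succ {w : ℕ} (hw : ¬ Odd w) (n : ℕ) :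
    Zi wt A (w + 1) n = Pw wt A w n * Zi wt A w n := by
  unfold Zi Pw
  rw [filter_succ, Finset.prod_disjUnion]
  congr 1
  refine Finset.prod_congr rfl fun j hj => ?_
  rw [(Finset.mem_filter.1 hj).2]
  unfold fac
  rw [if_pos ((Nat.not_odd_iff_even.1 hw).add_one)]

lemma BS_Zw (h : Weil N c wt A) (w : ℕ) : BS N (w - 1) (Zw wt A w) := by
  refine BS.prod _ fun j hj => ?_
  have hj' : (wt j : ℝ) ≤ (w : ℝ) - 1 := by
    have : wt j + 1 ≤ w := (Finset.mem_filter.1 hj).2
    have : ((wt j + 1 : ℕ) : ℝ) ≤ w := by exact_mod_cast this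
    push_cast at this; linarith
  unfold fac
  split_ifs
  · exact BS.lin fun n hn => norm_alph_le h j hj' hn
  · exact BS.geo fun n hn => norm_alph_le h j hj' hn

lemma BS_Zi (h : Weil N c wt A) (w : ℕ) : BS N (w - 1) (Zi wt A w) := by
  refine BS.prod _ fun j hj => ?_
  have hj' : (wt j : ℝ) ≤ (w : ℝ) - 1 := by
    have : wt j + 1 ≤ w := (Finset.mem_filter.1 hj).2
    have : ((wt j + 1 : ℕ) : ℝ) ≤ w := by exact_mod_cast this
    push_cast at this; linarith
  unfold fac
  split_ifs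
  · exact BS.lin fun n hn => norm_alph_le h j hj' hn
  · exact BS.geo fun n hn => norm_alph_le h j hj' hn

lemma BS_Pw (h : Weil N c wt A) (w : ℕ) : BS N w (Pw wt A w) := by
  refine BS.prod _ fun j hj => ?_
  have hj' : (wt j : ℝ) ≤ (w : ℝ) := by rw [(Finset.mem_filter.1 hj).2]
  exact BS.lin fun n hn => norm_alph_le h j hj' hn

/-- the coefficients of a product of `1 - a X` -/
lemma coeff_prod_lin {T : Type} (s : Finset T) (a : T → ℂ) (m : ℕ) :
    coeff m (∏ j ∈ s, lin (a j)) = (-1) ^ m * ∑ t ∈ s.powersetCard m, ∏ j ∈ t, a j := by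
  classical
  have h1 : ∏ j ∈ s, lin (a j) =
      ((∏ j ∈ s, ((1 : Polynomial ℂ) + Polynomial.C (- a j) * Polynomial.X) : Polynomial ℂ) :
        PowerSeries ℂ) := by
    rw [← Polynomial.coeToPowerSeries.ringHom_apply, map_prod]
    refine Finset.prod_congr rfl fun j _ => ?_
    rw [map_add, map_mul, map_one]
    simp only [Polynomial.coeToPowerSeries.ringHom_apply, Polynomial.coe_C, Polynomial.coe_X]
    unfold lin
    rw [map_neg]; ring
  rw [h1, Polynomial.coeff_coe, Finset.prod_one_add, Polynomial.finset_sum_coeff]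
  have h2 : ∀ t ∈ s.powerset, (∏ j ∈ t, (Polynomial.C (-a j) * Polynomial.X)).coeff m =
      if t.card = m then (-1) ^ m * ∏ j ∈ t, a j else 0 := by
    intro t _
    rw [Finset.prod_mul_distrib, Finset.prod_const, ← map_prod, Polynomial.coeff_C_mul,
      Polynomial.coeff_X_pow]
    split_ifs with h3 h4 h4
    · rw [mul_one, Finset.prod_neg, h4]
    · exact absurd h3.symm h4
    · exact absurd h4.symm h3
    · rw [mul_zero]
  rw [Finset.sum_congr rfl h2, ← Finset.sum_filter, Finset.mul_sum]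
  refine Finset.sum_congr ?_ fun _ _ => rfl
  ext t
  rw [Finset.mem_filter, Finset.mem_powerset, Finset.mem_powersetCard]

end desc

end Pool.Agent.HW3
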