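import Mathlib

/-!
# Newton's recursion for the multisets which are stable under a map
-/

set_option autoImplicit false

namespace Pool.Agent.HW3

open Function

variable {Y : Type*} [DecidableEq Y] (F : Y → Y)

/-- the multisets with `m` elements which are stable under `F` -/
def Stab (m : ℕ) : Type _ := {s : Multiset Y // s.card = m ∧ s.map F = s}

/-- the orbit of `y`, each element once -/
noncomputable def orb (y : Y) : Multiset Y :=
  (Multiset.range (minimalPeriod F y)).map fun i => F^[i] y

variable {F}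

lemma card_orb (y : Y) : (orb F y).card = minimalPeriod F y := by simp [orb]

lemma nodup_orb (y : Y) : (orb F y).Nodup := by
  unfold orb
  refine Multiset.Nodup.map_on ?_ (Multiset.nodup_range _)
  intro i hi j hj h
  exact (iterate_injOn_Iio_minimalPeriod (Multiset.mem_range.1 hi) (Multiset.mem_range.1 hj) h)

lemma mem_orb {y z : Y} : z ∈ orb F y ↔ ∃ i < minimalPeriod F y, F^[i] y = z := by
  simp [orb]

lemma mem_orb_self {y : Y} (h : y ∈ periodicPts F) : y ∈ orb F y :=
  mem_orb.2 ⟨0, minimalPeriod_pos_of_mem_periodicPts h, rfl⟩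

lemma map_orb {y : Y} (h : y ∈ periodicPts F) : (orb F y).map F = orb F y := by
  have hd := minimalPeriod_pos_of_mem_periodicPts h
  have h1 : ((orb F y).map F).Nodup := by
    unfold orb
    rw [Multiset.map_map]
    refine Multiset.Nodup.map_on ?_ (Multiset.nodup_range _)
    intro i hi j hj hij
    rw [Multiset.mem_range] at hi hj
    simp only [comp_apply, ← iterate_succ_apply'] at hij
    have e : F^[i] y = F^[j] y := by
      have h2 := congrArg (F^[minimalPeriod F y - 1]) hij
      rw [← iterate_add_apply, ← iterate_add_apply] at h2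
      have e1 : minimalPeriod F y - 1 + i.succ = i + minimalPeriod F y := by omega
      have e2 : minimalPeriod F y - 1 + j.succ = j + minimalPeriod F y := by omega
      rw [e1, e2, iterate_add_apply, iterate_add_apply, iterate_minimalPeriod] at h2
      exact h2
    exact iterate_injOn_Iio_minimalPeriod hi hj e
  refine (h1.ext (nodup_orb y)).2 ?_
  intro z
  rw [Multiset.mem_map]
  constructor
  · rintro ⟨w, hw, rfl⟩
    obtain ⟨i, hi, rfl⟩ := mem_orb.1 hw
    rw [← iterate_succ_apply' F]
    rw [mem_orb]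
    rcases lt_or_eq_of_le (Nat.succ_le_of_lt hi) with h | h
    · exact ⟨i.succ, h, rfl⟩
    · refine ⟨0, hd, ?_⟩
      rw [h, iterate_minimalPeriod]; rfl
  · intro hz
    obtain ⟨i, hi, rfl⟩ := mem_orb.1 hz
    rcases Nat.eq_zero_or_pos i with h | h
    · subst h
      refine ⟨F^[minimalPeriod F y - 1] y, mem_orb.2 ⟨_, by omega, rfl⟩, ?_⟩
      rw [← iterate_succ_apply' F, Nat.succ_eq_add_one, Nat.sub_add_cancel hd,
        iterate_minimalPeriod]; rfl
    · refine ⟨F^[i - 1] y, mem_orb.2 ⟨i - 1, by omega, rfl⟩, ?_⟩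
      rw [← iterate_succ_apply' F, Nat.succ_eq_add_one, Nat.sub_add_cancel h]

/-- elements of stable multisets are periodic -/
lemma iterate_mem {s : Multiset Y} (h : s.map F = s) {y : Y} (hy : y ∈ s) (i : ℕ) :
    F^[i] y ∈ s := by
  induction i with
  | zero => exact hy
  | succ i ih =>
    rw [iterate_succ_apply', ← h]
    exact Multiset.mem_map_of_mem F ih

lemma injOn_of_stab {s : Multiset Y} (h : s.map F = s) : Set.InjOn F {y | y ∈ s} := by
  have h1 : s.toFinset.image F = s.toFinset := by
    ext z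
    simp only [Finset.mem_image, Multiset.mem_toFinset]
    constructor
    · rintro ⟨y, hy, rfl⟩
      rw [← h]; exact Multiset.mem_map_of_mem F hy
    · intro hz
      rw [← h] at hz
      obtain ⟨y, hy, rfl⟩ := Multiset.mem_map.1 hz
      exact ⟨y, hy, rfl⟩
  have h2 : Set.InjOn F s.toFinset := by
    rw [← Finset.card_image_iff, h1]
  intro a ha b hb hab
  exact h2 (by simpa using ha) (by simpa using hb) hab

lemma count_map_stab {s : Multiset Y} (h : s.map F = s) {y : Y} (hy : y ∈ s) :
    s.count (F y) = s.count y := by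
  have := Multiset.count_map_eq_count F s (injOn_of_stab h) y hy
  rw [h] at this
  exact this

lemma count_iterate_stab {s : Multiset Y} (h : s.map F = s) {y : Y} (hy : y ∈ s) (i : ℕ) :
    s.count (F^[i] y) = s.count y := by
  induction i with
  | zero => rfl
  | succ i ih => rw [iterate_succ_apply', count_map_stab h (iterate_mem h hy i), ih]

lemma periodic_of_mem {s : Multiset Y} (h : s.map F = s) {y : Y} (hy : y ∈ s) :
    y ∈ periodicPts F := by
  have hfin : ({y | y ∈ s} : Set Y).Finite := by
    refine s.toFinset.finite_toSet.subset ?_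
    intro z hz; simpa using hz
  have hmaps : Set.MapsTo F {y | y ∈ s} {y | y ∈ s} := fun z hz => by
    have := iterate_mem h hz 1
    simpa using this
  obtain ⟨i, -, j, -, hij, e⟩ := Set.Infinite.exists_ne_map_eq_of_mapsTo
    (s := (Set.univ : Set ℕ)) (t := {y | y ∈ s}) (f := fun i => F^[i] y) Set.infinite_univ
    (fun i _ => iterate_mem h hy i) hfin
  have hinj := injOn_of_stab h
  have hcancel : ∀ i j : ℕ, F^[i] y = F^[i + j] y → F^[j] y = y := by
    intro i
    induction i with
    | zero => intro j hj; rw [Nat.zero_add] at hj; exact hj.symm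
    | succ i ih =>
      intro j hj
      apply ih
      rw [show i + 1 + j = (i + j) + 1 by ring, iterate_succ_apply', iterate_succ_apply'] at hj
      exact hinj (iterate_mem h hy i) (iterate_mem h hy (i + j)) hj
  rcases lt_or_gt_of_ne hij with hl | hl
  · refine mk_mem_periodicPts (n := j - i) (by omega) ?_
    exact hcancel i (j - i) (by rw [Nat.add_sub_cancel' hl.le]; exact e)
  · refine mk_mem_periodicPts (n := i - j) (by omega) ?_
    exact hcancel j (i - j) (by rw [Nat.add_sub_cancel' hl.le]; exact e.symm)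

lemma count_orb {y z : Y} : (orb F y).count z = if z ∈ orb F y then 1 else 0 := by
  split_ifs with h
  · exact Multiset.count_eq_one_of_mem (nodup_orb y) h
  · exact Multiset.count_eq_zero_of_notMem h

lemma smul_orb_le {s : Multiset Y} (h : s.map F = s) {y : Y} (hy : y ∈ s) {l : ℕ}
    (hl : l ≤ s.count y) : l • orb F y ≤ s := by
  rw [Multiset.le_iff_count]
  intro z
  rw [Multiset.count_nsmul, count_orb]
  split_ifs with hz
  · obtain ⟨i, -, rfl⟩ := mem_orb.1 hz
    rw [count_iterate_stab h hy]; omega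
  · simp

lemma map_nsmul (l : ℕ) (s : Multiset Y) (f : Y → Y) : (l • s).map f = l • s.map f := by
  induction l with
  | zero => simp
  | succ l ih => rw [succ_nsmul, succ_nsmul, Multiset.map_add, ih]

variable (F)

/-- a stable multiset with a marked element -/
def T1 (m : ℕ) : Type _ :=
  {t : Multiset Y × Y × ℕ // (t.1.card = m ∧ t.1.map F = t.1) ∧ t.2.2 < t.1.count t.2.1}

/-- a periodic point and a stable multiset -/
def T2 (m : ℕ) : Type _ :=
  {t : ℕ × Y × Multiset Y // (0 < t.1 ∧ F^[t.1] t.2.1 = t.2.1) ∧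
    t.2.2.card + t.1 = m ∧ t.2.2.map F = t.2.2}

variable {F}

/-- remove copies of the orbit of the marked element -/
noncomputable def equivT (m : ℕ) : T1 F m ≃ T2 F m where
  toFun t := ⟨((t.1.2.2 + 1) * minimalPeriod F t.1.2.1, t.1.2.1,
      t.1.1 - (t.1.2.2 + 1) • orb F t.1.2.1), by
    obtain ⟨⟨s, y, l⟩, ⟨hs, hF⟩, hl⟩ := t
    dsimp only at hs hF hl ⊢
    have hy : y ∈ s := Multiset.count_pos.1 (by omega)
    have hper := periodic_of_mem hF hy
    have hd := minimalPeriod_pos_of_mem_periodicPts hper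
    have hle := smul_orb_le hF hy (l := l + 1) hl
    refine ⟨⟨Nat.mul_pos (Nat.succ_pos l) hd, ?_⟩, ?_, ?_⟩
    · exact (isPeriodicPt_minimalPeriod F y).const_mul (l + 1)
    · rw [Multiset.card_sub hle, Multiset.card_nsmul, card_orb, hs]
      have := Multiset.card_le_card hle
      rw [Multiset.card_nsmul, card_orb, hs] at this
      omega
    · have h1 : s = (s - (l + 1) • orb F y) + (l + 1) • orb F y := (tsub_add_cancel_of_le hle).symm
      have h2 : (s - (l + 1) • orb F y).map F + (l + 1) • orb F y =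
          (s - (l + 1) • orb F y) + (l + 1) • orb F y := by
        rw [← h1]
        conv_rhs => rw [← hF]
        conv_rhs => rw [h1]
        rw [Multiset.map_add, map_nsmul, map_orb hper]
      exact add_right_cancel h2⟩
  invFun t := ⟨(t.1.2.2 + (t.1.1 / minimalPeriod F t.1.2.1) • orb F t.1.2.1, t.1.2.1,
      t.1.1 / minimalPeriod F t.1.2.1 - 1), by
    obtain ⟨⟨j, y, s⟩, ⟨hj, hy⟩, hc, hF⟩ := t
    dsimp only at hj hy hc hF ⊢
    have hper : y ∈ periodicPts F := mk_mem_periodicPts hj hy
    have hd := minimalPeriod_pos_of_mem_periodicPts hper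
    have hdvd : minimalPeriod F y ∣ j := IsPeriodicPt.minimalPeriod_dvd hy
    obtain ⟨e, rfl⟩ := hdvd
    rw [Nat.mul_div_cancel_left e hd]
    have he : 0 < e := Nat.pos_of_mul_pos_left hj
    refine ⟨⟨?_, ?_⟩, ?_⟩
    · rw [Multiset.card_add, Multiset.card_nsmul, card_orb, mul_comm e]
      exact hc
    · rw [Multiset.map_add, map_nsmul, map_orb hper, hF]
    · rw [Multiset.count_add, Multiset.count_nsmul, Multiset.count_eq_one_of_mem (nodup_orb y)
        (mem_orb_self hper)]
      omega⟩
  left_inv := by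
    rintro ⟨⟨s, y, l⟩, ⟨hs, hF⟩, hl⟩
    dsimp only at hs hF hl
    have hy : y ∈ s := Multiset.count_pos.1 (by omega)
    have hper := periodic_of_mem hF hy
    have hd := minimalPeriod_pos_of_mem_periodicPts hper
    have hle := smul_orb_le hF hy (l := l + 1) hl
    apply Subtype.ext
    dsimp only
    rw [Nat.mul_div_cancel _ hd, tsub_add_cancel_of_le hle, Nat.add_sub_cancel]
  right_inv := by
    rintro ⟨⟨j, y, s⟩, ⟨hj, hy⟩, hc, hF⟩
    dsimp only at hj hy hc hF
    have hper : y ∈ periodicPts F := mk_mem_periodicPts hj hy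
    have hd := minimalPeriod_pos_of_mem_periodicPts hper
    have hdvd : minimalPeriod F y ∣ j := IsPeriodicPt.minimalPeriod_dvd hy
    obtain ⟨e, rfl⟩ := hdvd
    have he : 0 < e := Nat.pos_of_mul_pos_left hj
    apply Subtype.ext
    dsimp only
    rw [Nat.mul_div_cancel_left e hd, Nat.sub_add_cancel he, mul_comm e, Multiset.add_sub_cancel_right]

/-- the stable multisets are finitely many -/
lemma finite_stab (h : ∀ j, 0 < j → {y : Y | F^[j] y = y}.Finite) (m : ℕ) :
    Finite (Stab F m) := by
  have hU : (⋃ j ∈ Finset.Icc 1 m, {y : Y | F^[j] y = y}).Finite := by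
    refine Set.Finite.biUnion (Finset.finite_toSet _) ?_
    intro j hj
    exact h j (Finset.mem_Icc.1 (by simpa using hj)).1
  let U := hU.toFinset
  have hsub : {s : Multiset Y | s.card = m ∧ s.map F = s} ⊆
      {s : Multiset Y | s ≤ m • U.val} := by
    rintro s ⟨hs, hF⟩
    show s ≤ m • U.val
    rw [Multiset.le_iff_count]
    intro y
    rw [Multiset.count_nsmul]
    by_cases hy : y ∈ s
    · have hper := periodic_of_mem hF hy
      have hd := minimalPeriod_pos_of_mem_periodicPts hper
      have hle := smul_orb_le hF hy (l := 1) (Multiset.count_pos.2 hy)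
      have hc := Multiset.card_le_card hle
      rw [Multiset.card_nsmul, card_orb, hs, one_mul] at hc
      have hmem : y ∈ U := by
        rw [Set.Finite.mem_toFinset]
        simp only [Set.mem_iUnion]
        exact ⟨minimalPeriod F y, Finset.mem_Icc.2 ⟨hd, hc⟩, iterate_minimalPeriod⟩
      rw [Multiset.count_eq_one_of_mem U.nodup hmem, mul_one, ← hs]
      exact Multiset.count_le_card _ _
    · rw [Multiset.count_eq_zero_of_notMem hy]; exact Nat.zero_le _
  have hfin : {s : Multiset Y | s ≤ m • U.val}.Finite := by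
    have : {s : Multiset Y | s ≤ m • U.val} = ((m • U.val).powerset.toFinset : Set (Multiset Y)) := by
      ext s; simp
    rw [this]
    exact Finset.finite_toSet _
  exact (hfin.subset hsub).to_subtype

lemma card_T1 (h : ∀ j, 0 < j → {y : Y | F^[j] y = y}.Finite) (m : ℕ) :
    Nat.card (T1 F m) = m * Nat.card (Stab F m) := by
  have := finite_stab h m
  let e : T1 F m ≃ Σ s : Stab F m, {p : Y × ℕ // p ∈ s.1.toEnumFinset} :=
    { toFun := fun t => ⟨⟨t.1.1, t.2.1⟩, ⟨t.1.2, by
        rw [Multiset.mem_toEnumFinset]; exact t.2.2⟩⟩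
      invFun := fun t => ⟨(t.1.1, t.2.1), t.1.2, by
        have := t.2.2
        rw [Multiset.mem_toEnumFinset] at this; exact this⟩
      left_inv := fun t => rfl
      right_inv := fun t => rfl }
  rw [Nat.card_congr e]
  have := Fintype.ofFinite (Stab F m)
  rw [Nat.card_sigma]
  have h1 : ∀ s : Stab F m, Nat.card {p : Y × ℕ // p ∈ s.1.toEnumFinset} = m := by
    intro s
    rw [Nat.card_eq_fintype_card, Fintype.card_coe, Multiset.card_toEnumFinset, s.2.1]
  rw [Finset.sum_congr rfl (fun s _ => h1 s), Finset.sum_const, Finset.card_univ,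
    Nat.card_eq_fintype_card, smul_eq_mul, mul_comm]

lemma card_T2 (h : ∀ j, 0 < j → {y : Y | F^[j] y = y}.Finite) (m : ℕ) :
    Nat.card (T2 F m) = ∑ j ∈ Finset.range m,
      Nat.card {y : Y // F^[j + 1] y = y} * Nat.card (Stab F (m - (j + 1))) := by
  have := finite_stab h
  have hper : ∀ j : ℕ, Finite {y : Y // F^[j + 1] y = y} := fun j => (h (j + 1) j.succ_pos).to_subtype
  let e : T2 F m ≃ Σ j : Fin m, {y : Y // F^[(j : ℕ) + 1] y = y} × Stab F (m - ((j : ℕ) + 1)) :=
    { toFun := fun t => ⟨⟨t.1.1 - 1, by have := t.2.1.1; have := t.2.2.1; omega⟩,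
        ⟨t.1.2.1, by
          have h1 := t.2.1.2
          have h0 := t.2.1.1
          dsimp only
          rw [Nat.sub_add_cancel h0]; exact h1⟩, ⟨t.1.2.2, by
          have h1 := t.2.2.1
          have h0 := t.2.1.1
          dsimp only
          omega, t.2.2.2⟩⟩
      invFun := fun t => ⟨((t.1 : ℕ) + 1, t.2.1.1, t.2.2.1), ⟨Nat.succ_pos _, t.2.1.2⟩, by
        have h1 := t.2.2.2.1
        have h2 := t.1.2
        dsimp only
        omega, t.2.2.2.2⟩
      left_inv := by
        rintro ⟨⟨j, y, s⟩, ⟨hj, hy⟩, hc, hF⟩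
        apply Subtype.ext
        dsimp only at hj ⊢
        rw [Nat.sub_add_cancel hj]
      right_inv := by
        rintro ⟨⟨j, hj⟩, ⟨y, hy⟩, ⟨s, hs⟩⟩
        rfl }
  rw [Nat.card_congr e, Nat.card_sigma]
  rw [Finset.sum_range]
  refine Finset.sum_congr rfl fun j _ => ?_
  rw [Nat.card_prod]

/-- Newton's recursion -/
theorem newton (h : ∀ j, 0 < j → {y : Y | F^[j] y = y}.Finite) (m : ℕ) :
    m * Nat.card (Stab F m) = ∑ j ∈ Finset.range m,
      Nat.card {y : Y // F^[j + 1] y = y} * Nat.card (Stab F (m - (j + 1))) := by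
  rw [← card_T1 h, ← card_T2 h, Nat.card_congr (equivT m)]

lemma card_stab_zero : Nat.card (Stab F 0) = 1 := by
  rw [Nat.card_eq_one_iff_unique]
  refine ⟨⟨fun a b => ?_⟩, ⟨⟨0, by simp⟩⟩⟩
  apply Subtype.ext
  rw [Multiset.card_eq_zero.1 a.2.1, Multiset.card_eq_zero.1 b.2.1]

end Pool.Agent.HW3
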