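import Mathlib

/-!
# The points of a quotient by a finite group
-/

set_option autoImplicit false

open Polynomial MulSemiringAction

namespace Pool.Agent.HW3

section ext

variable {A B Ω : Type*} [CommRing A] [CommRing B] [Algebra A B] [Field Ω] [IsAlgClosed Ω]

/-- extension of homomorphisms to an algebraically closed field along integral extensions -/
theorem exists_extend [Algebra.IsIntegral A B] (hinj : Function.Injective (algebraMap A B))
    (y : A →+* Ω) : ∃ x : B →+* Ω, x.comp (algebraMap A B) = y := by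
  let p := RingHom.ker y
  have hp : p.IsPrime := RingHom.ker_isPrime y
  obtain ⟨P, -, hP, hPp⟩ := Ideal.exists_ideal_over_prime_of_isIntegral (R := A) (S := B) p ⊥ (by
    rw [← RingHom.ker_eq_comap_bot, (RingHom.injective_iff_ker_eq_bot _).1 hinj]; exact bot_le)
  let yq : A ⧸ p →+* Ω := Ideal.Quotient.lift p y (fun a ha => ha)
  have hyq : Function.Injective yq := RingHom.lift_injective_of_ker_le_ideal p _ le_rfl
  let ab : A ⧸ p →+* B ⧸ P := Ideal.quotientMap P (algebraMap A B) hPp.ge
  have hab : Function.Injective ab := Ideal.quotientMap_injective' hPp.le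
  letI : Algebra (A ⧸ p) (B ⧸ P) := ab.toAlgebra
  letI : Algebra (A ⧸ p) Ω := yq.toAlgebra
  have : FaithfulSMul (A ⧸ p) (B ⧸ P) := (faithfulSMul_iff_algebraMap_injective _ _).2 hab
  have : FaithfulSMul (A ⧸ p) Ω := (faithfulSMul_iff_algebraMap_injective _ _).2 hyq
  have hint : Algebra.IsIntegral (A ⧸ p) (B ⧸ P) := by
    constructor
    intro b
    obtain ⟨b, rfl⟩ := Ideal.Quotient.mk_surjective b
    obtain ⟨f, hf, hfb⟩ := Algebra.IsIntegral.isIntegral (R := A) b
    refine ⟨f.map (Ideal.Quotient.mk p), hf.map _, ?_⟩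
    rw [eval₂_map]
    have : (algebraMap (A ⧸ p) (B ⧸ P)).comp (Ideal.Quotient.mk p) =
        (Ideal.Quotient.mk P).comp (algebraMap A B) := by
      ext a
      rfl
    rw [this, ← hom_eval₂, hfb, map_zero]
  have ht1 : Module.IsTorsionFree (A ⧸ p) (B ⧸ P) := .trans_faithfulSMul (A ⧸ p) (B ⧸ P) (B ⧸ P)
  have ht2 : Module.IsTorsionFree (A ⧸ p) Ω := .trans_faithfulSMul (A ⧸ p) Ω Ω
  let φ : B ⧸ P →ₐ[A ⧸ p] Ω := IsAlgClosed.lift
  refine ⟨(φ : B ⧸ P →+* Ω).comp (Ideal.Quotient.mk P), ?_⟩
  ext a
  have h1 := φ.commutes (Ideal.Quotient.mk p a)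
  exact h1

end ext

section trans

variable {R : Type*} [CommRing R] {G : Type*} [Group G] [Finite G] [MulSemiringAction G R]
  {Ω : Type*} [CommRing Ω] [IsDomain Ω]

/-- homomorphisms to a domain which agree on the invariants are conjugate -/
theorem exists_conj (x x' : R →+* Ω) (h : ∀ r : R, (∀ g : G, g • r = r) → x r = x' r) :
    ∃ g : G, ∀ r, x' r = x (g • r) := by
  cases nonempty_fintype G
  by_contra! hne
  choose c hc using hne
  let e := Fintype.equivFin G
  let D : R[X] := ∑ g : G, monomial (e g : ℕ) (c g)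
  have hcoef : ∀ g : G, D.coeff (e g) = c g := by
    intro g
    simp only [D, finset_sum_coeff, coeff_monomial]
    rw [Finset.sum_eq_single g]
    · simp
    · intro b _ hb
      rw [if_neg]
      intro h'
      exact hb (e.injective (Fin.ext h'))
    · intro h'; exact absurd (Finset.mem_univ g) h'
  have hP : (charpoly G D).map (mapRingHom x) = (charpoly G D).map (mapRingHom x') := by
    ext1 i
    rw [coeff_map, coeff_map]
    have hinv := fun g : G => smul_coeff_charpoly D i g
    ext1 j
    rw [coe_mapRingHom, coe_mapRingHom, coeff_map, coeff_map]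
    apply h
    intro g
    rw [← coeff_smul, hinv g]
  have h0 : ((charpoly G D).map (mapRingHom x')).eval (mapRingHom x' D) = 0 := by
    rw [eval_map, eval₂_hom, eval_charpoly, map_zero]
  rw [← hP, charpoly_eq, Polynomial.map_prod, eval_prod, Finset.prod_eq_zero_iff] at h0
  obtain ⟨g, -, hg⟩ := h0
  rw [Polynomial.map_sub, map_X, map_C, eval_sub, eval_X, eval_C, sub_eq_zero] at hg
  have h1 := congrArg (fun q : Polynomial Ω => q.coeff (e g)) hg
  simp only [coe_mapRingHom, coeff_map, coeff_smul, hcoef] at h1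
  exact hc g h1

end trans

section quotient

variable {R : Type*} [CommRing R] (G : Type*) [Group G] [MulSemiringAction G R]
  (J : Ideal R)

/-- the image of the invariants in `R ⧸ J` -/
def QB : Subring (R ⧸ J) := (FixedPoints.subring R G).map (Ideal.Quotient.mk J)

lemma mem_QB {r : R} (h : ∀ g : G, g • r = r) : Ideal.Quotient.mk J r ∈ QB G J :=
  ⟨r, h, rfl⟩

variable [Finite G]

instance : Algebra.IsIntegral (QB G J) (R ⧸ J) := by
  cases nonempty_fintype G
  constructor
  intro b
  obtain ⟨b, rfl⟩ := Ideal.Quotient.mk_surjective b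
  have hl : charpoly G b ∈ Polynomial.lifts (FixedPoints.subring R G).subtype := by
    rw [Polynomial.lifts_iff_coeff_lifts]
    intro n
    exact ⟨⟨_, fun g => smul_coeff_charpoly b n g⟩, rfl⟩
  obtain ⟨f, hf, -, hmon⟩ := Polynomial.lifts_and_natDegree_eq_and_monic hl (monic_charpoly G b)
  let π : FixedPoints.subring R G →+* QB G J :=
    ((Ideal.Quotient.mk J).comp (FixedPoints.subring R G).subtype).codRestrict (QB G J)
      (fun r => mem_QB G J r.2)
  refine ⟨f.map π, hmon.map _, ?_⟩
  rw [eval₂_map]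
  have : (algebraMap (QB G J) (R ⧸ J)).comp π =
      (Ideal.Quotient.mk J).comp (FixedPoints.subring R G).subtype := by
    ext a; rfl
  rw [this, ← eval₂_map, hf, eval₂_at_apply, eval_charpoly, map_zero]

theorem QB_extend {Ω : Type*} [Field Ω] [IsAlgClosed Ω] (y : QB G J →+* Ω) :
    ∃ x : R ⧸ J →+* Ω, x.comp (QB G J).subtype = y :=
  exists_extend (A := QB G J) (B := R ⧸ J) Subtype.val_injective y

theorem QB_conj {Ω : Type*} [CommRing Ω] [IsDomain Ω] {x x' : R ⧸ J →+* Ω}
    (h : x.comp (QB G J).subtype = x'.comp (QB G J).subtype) :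
    ∃ g : G, ∀ r : R, x' (Ideal.Quotient.mk J r) = x (Ideal.Quotient.mk J (g • r)) := by
  refine exists_conj (x.comp (Ideal.Quotient.mk J)) (x'.comp (Ideal.Quotient.mk J)) ?_
  intro r hr
  exact congrArg (fun f : QB G J →+* Ω => f ⟨_, mem_QB G J hr⟩) h

theorem QB_agree {Ω : Type*} [CommRing Ω] {x x' : R ⧸ J →+* Ω} (g : G)
    (h : ∀ r : R, x' (Ideal.Quotient.mk J r) = x (Ideal.Quotient.mk J (g • r))) :
    x.comp (QB G J).subtype = x'.comp (QB G J).subtype := by
  ext ⟨_, r, hr, rfl⟩
  show x (Ideal.Quotient.mk J r) = x' (Ideal.Quotient.mk J r)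
  rw [h r, show g • r = r from hr g]

theorem finiteType_inv [Algebra.FiniteType ℤ R] : Algebra.FiniteType ℤ (FixedPoints.subring R G) := by
  have h1 : Algebra.IsInvariant (FixedPoints.subring R G) R G := ⟨fun b hb => ⟨⟨b, hb⟩, rfl⟩⟩
  have h2 : Algebra.IsIntegral (FixedPoints.subring R G) R :=
    Algebra.IsInvariant.isIntegral (FixedPoints.subring R G) R G
  have h3 : Algebra.FiniteType (FixedPoints.subring R G) R :=
    Algebra.FiniteType.of_restrictScalars_finiteType ℤ _ _
  have h4 : Module.Finite (FixedPoints.subring R G) R := Algebra.IsIntegral.finite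
  exact ⟨fg_of_fg_of_fg ℤ (FixedPoints.subring R G) R Algebra.FiniteType.out
    h4.fg_top Subtype.val_injective⟩

instance finiteType_QB [Algebra.FiniteType ℤ R] : Algebra.FiniteType ℤ (QB G J) := by
  have := finiteType_inv (R := R) G
  let π : FixedPoints.subring R G →+* QB G J :=
    ((Ideal.Quotient.mk J).comp (FixedPoints.subring R G).subtype).codRestrict (QB G J)
      (fun r => mem_QB G J r.2)
  refine Algebra.FiniteType.of_surjective π.toIntAlgHom ?_
  rintro ⟨_, r, hr, rfl⟩
  exact ⟨⟨r, hr⟩, rfl⟩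

end quotient

end Pool.Agent.HW3
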