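import Mathlib

/-!
# Zeta functions of schemes and their parts of a given weight: definitions
-/

set_option autoImplicit false

open AlgebraicGeometry

namespace Pool.Agent.HW3

/-- The zeta function of the problem: the Euler product over the closed points. -/
noncomputable def zeta (X : Scheme.{0}) (s : ℂ) : ℂ :=
  ∏' x : {x : X // IsClosed ({x} : Set X)}, (1 - ((Nat.card (X.residueField x.1) : ℂ) ^ (-s)))⁻¹

/-- `X` is of finite type over `Spec ℤ`. -/
def FiniteTypeZ (X : Scheme.{0}) : Prop :=
  ∃ f : X ⟶ Spec (CommRingCat.of ℤ), LocallyOfFiniteType f ∧ QuasiCompact f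

/-- `L`, which matters only on a right half-plane, continues to a function meromorphic on `ℂ`. -/
def Continues (L : ℂ → ℂ) : Prop :=
  ∃ F : ℂ → ℂ, MeromorphicOn F Set.univ ∧ ∃ σ : ℝ, ∀ s : ℂ, σ < s.re → F s = L s

/-- `X` is a scheme of finite type over `ℤ` without points in the characteristics dividing `N`,
and for the other primes `p` the complex numbers `A p j`, `j : J`, of absolute value
`p ^ (wt j / 2)`, are the Frobenius eigenvalues of weight `wt j`:
the number of points of `X` with values in the field with `p ^ k` elements is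
`∑ j, (-1) ^ wt j * A p j ^ k`. -/
structure Weights (N : ℕ) (X : Scheme.{0}) {J : Type} [Fintype J] (wt : J → ℕ)
    (A : ℕ → J → ℂ) : Prop where
  finite_type : FiniteTypeZ X
  norm : ∀ p : ℕ, p.Prime → ¬ p ∣ N → ∀ j, ‖A p j‖ = (p : ℝ) ^ ((wt j : ℝ) / 2)
  points : ∀ (p k : ℕ) (K : Type) [Field K], p.Prime → 0 < k → Nat.card K = p ^ k →
    (Nat.card (Spec (CommRingCat.of K) ⟶ X) : ℂ) =
      if p ∣ N then 0 else ∑ j, (-1) ^ wt j * A p j ^ k

/-- `X` is pure over `ℤ[1/N]`. -/
def Pure (N : ℕ) (X : Scheme.{0}) : Prop :=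
  ∃ (J : Type) (_ : Fintype J) (wt : J → ℕ) (A : ℕ → J → ℂ), Weights N X wt A

/-- The `L`-function of the part of weight `w`: of `H^w`. -/
noncomputable def LWeight (N : ℕ) {J : Type} [Fintype J] (wt : J → ℕ) (A : ℕ → J → ℂ) (w : ℕ)
    (s : ℂ) : ℂ :=
  ∏' p : {p : ℕ // p.Prime ∧ ¬ p ∣ N}, ∏ j ∈ Finset.univ.filter (fun j => wt j = w),
    (1 - A p j * (p : ℂ) ^ (-s))⁻¹

/-- The `L`-function of a polynomial `f` in the Frobenius eigenvalues of several schemes: each
monomial `m` of `f` with coefficient `a` gives the factor `(1 - m p ^ (-s)) ^ (-a)` at `p`. -/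
noncomputable def LPoly (N : ℕ) {V : Type} [Fintype V] (A : ℕ → V → ℂ) (f : MvPolynomial V ℤ)
    (s : ℂ) : ℂ :=
  ∏' p : {p : ℕ // p.Prime ∧ ¬ p ∣ N}, ∏ m ∈ f.support,
    (1 - (∏ v, A p v ^ m v) * (p : ℂ) ^ (-s)) ^ (-(f.coeff m))

/-- `c n` is the number of points of `X` over the field with `n` elements, for each prime power
`n`. -/
def IsPoints (X : Scheme.{0}) (c : ℕ → ℂ) : Prop :=
  ∀ (K : Type) [Field K] [Finite K],
    c (Nat.card K) = (Nat.card (Spec (CommRingCat.of K) ⟶ X) : ℂ)

/-- The numbers of points of the schemes over `ℤ[1/N]` which are built from the schemes `X i` and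
`Spec ℤ[1/N]` by disjoint unions, products, products with the affine line and symmetric powers:
the number `σ m n` of points of the `m`-th symmetric power over the field with `n` elements is
given by `m * σ m n = ∑ l ∈ {1, ..., m}, c (n ^ l) * σ (m - l) n`. -/
inductive Built (N : ℕ) {I : Type} (X : I → Scheme.{0}) : (ℕ → ℂ) → Prop
  | scheme (i : I) (c : ℕ → ℂ) : IsPoints (X i) c → Built N X c
  | empty : Built N X (fun _ => 0)
  | point : Built N X (fun n => if n.Coprime N then 1 else 0)
  | union (c c' : ℕ → ℂ) : Built N X c → Built N X c' → Built N X (fun n => c n + c' n)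
  | prod (c c' : ℕ → ℂ) : Built N X c → Built N X c' → Built N X (fun n => c n * c' n)
  | line (c : ℕ → ℂ) : Built N X c → Built N X (fun n => n * c n)
  | sym (c : ℕ → ℂ) (σ : ℕ → ℕ → ℂ) (m : ℕ) : Built N X c →
      (∀ n, IsPrimePow n → σ 0 n = if n.Coprime N then 1 else 0) →
      (∀ m n : ℕ, IsPrimePow n →
        m * σ m n = ∑ l ∈ Finset.Icc 1 m, c (n ^ l) * σ (m - l) n) → Built N X (σ m)

/-- A finite family of pure schemes over `ℤ[1/N]` with their Frobenius eigenvalues. -/
structure Family (N : ℕ) where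
  /-- the index set of the schemes -/
  I : Type
  /-- the schemes -/
  X : I → Scheme.{0}
  /-- the index sets of the eigenvalues -/
  J : I → Type
  /-- the weights of the eigenvalues -/
  wt : ∀ i, J i → ℕ
  /-- the eigenvalues -/
  A : ∀ i, ℕ → J i → ℂ
  [fintypeI : Fintype I]
  [fintypeJ : ∀ i, Fintype (J i)]
  weights : ∀ i, Weights N (X i) (wt i) (A i)

namespace Family

variable {N : ℕ} (F : Family N)

instance : Fintype F.I := F.fintypeI

instance (i : F.I) : Fintype (F.J i) := F.fintypeJ i

/-- All eigenvalues: the indices. -/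
abbrev V : Type := Σ i, F.J i

/-- The eigenvalues. -/
def eig (p : ℕ) (v : F.V) : ℂ := F.A v.1 p v.2

/-- The weight. -/
def weight (v : F.V) : ℕ := F.wt v.1 v.2

/-- `f` is invariant under the permutations of the eigenvalues which preserve the scheme and the
weight: `f` is symmetric in the eigenvalues of each weight of each scheme. -/
def Symmetric (f : MvPolynomial F.V ℤ) : Prop :=
  ∀ g : Equiv.Perm F.V, (∀ v, (g v).1 = v.1 ∧ F.weight (g v) = F.weight v) →
    MvPolynomial.rename g f = f

/-- `Y` is of finite type over `ℤ` and has as many points over each finite field as a scheme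
built from the schemes of the family. -/
def BuiltFrom (Y : Scheme.{0}) : Prop :=
  FiniteTypeZ Y ∧ ∃ c, Built N F.X c ∧ IsPoints Y c

end Family

/-- A theorem of Hironaka and Deligne: outside the characteristics which divide some `N`, each
scheme `X` of finite type over `ℤ` has as many points over the finite fields as the difference of two
pure schemes `Y` and `Z` over `ℤ[1/N]`. -/
def HironakaDeligne : Prop :=
  ∀ X : Scheme.{0}, FiniteTypeZ X → ∃ (N : ℕ) (Y Z : Scheme.{0}), 0 < N ∧ Pure N Y ∧ Pure N Z ∧
    ∀ (K : Type) [Field K] [Finite K], (Nat.card K).Coprime N →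
      Nat.card (Spec (CommRingCat.of K) ⟶ X) + Nat.card (Spec (CommRingCat.of K) ⟶ Z) =
        Nat.card (Spec (CommRingCat.of K) ⟶ Y)

/-- A theorem of Dwork: the zeta functions of the schemes of finite type in characteristic `p`
continue. -/
def Dwork : Prop :=
  ∀ (p : ℕ) (X : Scheme.{0}), p.Prime → FiniteTypeZ X →
    (∀ (K : Type) [Field K] [Finite K], ¬ p ∣ Nat.card K →
      IsEmpty (Spec (CommRingCat.of K) ⟶ X)) → Continues (zeta X)

end Pool.Agent.HW3
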