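import Pool.Agent.HW3.Main
import Pool.Agent.HW3.Defs
import Pool.Agent.HW.Eul
import Pool.Agent.HW.SymEx

/-!
# Assembly: polynomials in the Weil numbers
-/

set_option autoImplicit false

open Pool.Agent.Helper29.Zeta Pool.Agent.HW

namespace Pool.Agent.HW3

/-- the counting functions of pure schemes -/
def Cl (N : ℕ) (c : ℕ → ℂ) : Prop := IsCount c ∧ IsPure N c

open Classical in
/-- the function attached to a polynomial in the Weil numbers -/
noncomputable def mf (N : ℕ) {V : Type} [Fintype V] (A : ℕ → V → ℂ) (f : MvPolynomial V ℤ) (n : ℕ) :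
    ℂ :=
  if Good N n then MvPolynomial.eval₂ (Int.castRingHom ℂ) (fun v => alph A v n) f else 0

lemma not_good {N p k : ℕ} (hp : p.Prime) (hN : p ∣ N) (hk : 0 < k) : ¬ Good N (p ^ k) := by
  rintro ⟨-, h⟩
  rw [Nat.coprime_pow_left_iff hk, Nat.Prime.coprime_iff_not_dvd hp] at h
  exact h hN

lemma mf_pow (N : ℕ) {V : Type} [Fintype V] (A : ℕ → V → ℂ) (f : MvPolynomial V ℤ) (p k : ℕ)
    (hp : p.Prime) (hk : 0 < k) :
    mf N A f (p ^ k) = if p ∣ N then 0 else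
      ∑ t : f.support, ((f.coeff t.1 : ℤ) : ℂ) * (∏ v, A p v ^ t.1 v) ^ k := by
  unfold mf
  by_cases hN : p ∣ N
  · rw [if_neg (not_good hp hN hk), if_pos hN]
  · rw [if_pos (good_iff.2 ⟨p, k, hp, hN, hk, rfl⟩), if_neg hN, MvPolynomial.eval₂_eq',
      ← Finset.sum_coe_sort f.support]
    refine Finset.sum_congr rfl fun t _ => ?_
    rw [eq_intCast]
    congr 1
    rw [← Finset.prod_pow]
    refine Finset.prod_congr rfl fun v _ => ?_
    rw [alph_pow A v hp hk, ← pow_mul, ← pow_mul, mul_comm]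

/-- the Weil numbers have polynomial size -/
lemma norm_monomial {N : ℕ} {V : Type} [Fintype V] {A : ℕ → V → ℂ} {wt : V → ℕ}
    (h : ∀ p : ℕ, p.Prime → ¬ p ∣ N → ∀ v, ‖A p v‖ = (p : ℝ) ^ ((wt v : ℝ) / 2))
    (f : MvPolynomial V ℤ) : ∃ a : ℕ, ∀ p : ℕ, p.Prime → ¬ p ∣ N → ∀ t : f.support,
      ‖∏ v, A p v ^ t.1 v‖ ≤ (p : ℝ) ^ a := by
  refine ⟨∑ t : f.support, ∑ v, wt v * t.1 v, fun p hp hN t => ?_⟩
  have hp1 : (1 : ℝ) ≤ p := by exact_mod_cast hp.one_lt.le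
  have h1 : ∀ v, ‖A p v ^ t.1 v‖ ≤ (p : ℝ) ^ (wt v * t.1 v) := by
    intro v
    rw [norm_pow, h p hp hN v, pow_mul]
    refine pow_le_pow_left₀ (by positivity) ?_ _
    rw [← Real.rpow_natCast]
    refine Real.rpow_le_rpow_of_exponent_le hp1 ?_
    have : (0 : ℝ) ≤ wt v := Nat.cast_nonneg _
    linarith
  rw [norm_prod]
  refine (Finset.prod_le_prod (fun v _ => norm_nonneg _) (fun v _ => h1 v)).trans ?_
  rw [Finset.prod_pow_eq_pow_sum]
  refine pow_le_pow_right₀ hp1 ?_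
  exact Finset.single_le_sum (f := fun t : f.support => ∑ v, wt v * t.1 v)
    (fun _ _ => Nat.zero_le _) (Finset.mem_univ t)

lemma growth_mf {N : ℕ} {V : Type} [Fintype V] {A : ℕ → V → ℂ} {wt : V → ℕ}
    (h : ∀ p : ℕ, p.Prime → ¬ p ∣ N → ∀ v, ‖A p v‖ = (p : ℝ) ^ ((wt v : ℝ) / 2))
    (f : MvPolynomial V ℤ) : Growth (mf N A f) := by
  obtain ⟨a, ha⟩ := norm_monomial h f
  exact growth_weil N (fun t : f.support => f.coeff t.1)
    (fun p t => ∏ v, A p v ^ t.1 v) a ha (mf N A f) (mf_pow N A f)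

/-- the Euler product -/
lemma lpoly_eq {N : ℕ} {V : Type} [Fintype V] {A : ℕ → V → ℂ} {wt : V → ℕ}
    (h : ∀ p : ℕ, p.Prime → ¬ p ∣ N → ∀ v, ‖A p v‖ = (p : ℝ) ^ ((wt v : ℝ) / 2))
    (f : MvPolynomial V ℤ) :
    ∃ σ : ℝ, ∀ s : ℂ, σ < s.re → LPoly N A f s = Complex.exp (D (mf N A f) s) := by
  obtain ⟨a, ha⟩ := norm_monomial h f
  obtain ⟨σ, hσ⟩ := euler_weil_tprod N (fun t : f.support => f.coeff t.1)
    (fun p t => ∏ v, A p v ^ t.1 v) a ha (mf N A f) (mf_pow N A f)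
  refine ⟨σ, fun s hs => ?_⟩
  rw [← hσ s hs]
  unfold LPoly
  refine tprod_congr fun p => ?_
  rw [← Finset.prod_coe_sort f.support]

/-- the function attached to the block of weight `w` -/
lemma lweight_eq {N : ℕ} {J : Type} [Fintype J] {A : ℕ → J → ℂ} {wt : J → ℕ}
    (h : ∀ p : ℕ, p.Prime → ¬ p ∣ N → ∀ v, ‖A p v‖ = (p : ℝ) ^ ((wt v : ℝ) / 2)) (w : ℕ) :
    ∃ σ : ℝ, ∀ s : ℂ, σ < s.re → LWeight N wt A w s =
      Complex.exp (D (mf N A (∑ j ∈ Finset.univ.filter (fun j => wt j = w), MvPolynomial.X j)) s) := by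
  obtain ⟨σ, hσ⟩ := euler_block_tprod N
    (fun p (t : Finset.univ.filter (fun j => wt j = w)) => A p t.1) w (by
      intro p hp hN t
      have hp1 : (1 : ℝ) ≤ p := by exact_mod_cast hp.one_lt.le
      rw [h p hp hN, (Finset.mem_filter.1 t.2).2, ← Real.rpow_natCast]
      refine Real.rpow_le_rpow_of_exponent_le hp1 ?_
      have : (0 : ℝ) ≤ w := Nat.cast_nonneg _
      linarith)
    (mf N A (∑ j ∈ Finset.univ.filter (fun j => wt j = w), MvPolynomial.X j)) (by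
      intro p k hp hk
      unfold mf
      by_cases hN : p ∣ N
      · rw [if_neg (not_good hp hN hk), if_pos hN]
      · rw [if_pos (good_iff.2 ⟨p, k, hp, hN, hk, rfl⟩), if_neg hN, MvPolynomial.eval₂_sum,
          ← Finset.sum_coe_sort (Finset.univ.filter (fun j => wt j = w))]
        refine Finset.sum_congr rfl fun t _ => ?_
        rw [MvPolynomial.eval₂_X, alph_pow A _ hp hk])
  refine ⟨σ, fun s hs => ?_⟩
  rw [← hσ s hs]
  unfold LWeight
  refine tprod_congr fun p => ?_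
  rw [← Finset.prod_coe_sort (Finset.univ.filter (fun j => wt j = w))]

end Pool.Agent.HW3
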