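import Pool.Agent.HW3.Fin

/-!
# The equivalence, for an abstract completed ring: the remaining implications
-/

set_option autoImplicit false

open AlgebraicGeometry
open Pool.Agent.Helper29.Zeta Pool.Agent.HW

namespace Pool.Agent.HW3

variable {N : ℕ} {H : (ℕ → ℂ) → Prop}

/-- the sum of the variables of weight `w` of one scheme -/
noncomputable def pw {J : Type} [Fintype J] (wt : J → ℕ) (w : ℕ) :
    MvPolynomial (Σ _ : Unit, J) ℤ :=
  ∑ j ∈ Finset.univ.filter (fun j => wt j = w), MvPolynomial.X ⟨(), j⟩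

lemma sym_pw {J : Type} [Fintype J] (wt : J → ℕ) (w : ℕ) :
    Sym (J := fun _ : Unit => J) (fun _ => wt) (pw wt w) := by
  classical
  intro g hg
  unfold pw
  rw [map_sum]
  have e1 : ∀ P : (Σ _ : Unit, J) → MvPolynomial (Σ _ : Unit, J) ℤ,
      ∑ j ∈ Finset.univ.filter (fun j => wt j = w), P ⟨(), j⟩ =
      ∑ v ∈ Finset.univ.filter (fun v : Σ _ : Unit, J => wt v.2 = w), P v := by
    intro P
    refine Finset.sum_bij' (fun j _ => (⟨(), j⟩ : Σ _ : Unit, J)) (fun v _ => v.2) ?_ ?_ ?_ ?_ ?_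
    · intro j hj
      simpa using hj
    · intro v hv
      simpa using hv
    · intro j _; rfl
    · intro v _; rfl
    · intro j _; rfl
  have e2 := e1 (fun v => MvPolynomial.rename g (MvPolynomial.X v))
  have e3 := e1 (fun v => MvPolynomial.X v)
  rw [e2, e3]
  refine Finset.sum_bij (fun v _ => g v) ?_ ?_ ?_ ?_
  · intro v hv
    rw [Finset.mem_filter] at hv ⊢
    exact ⟨Finset.mem_univ _, (show wt (g v).2 = wt v.2 from (hg v).2).trans hv.2⟩
  · intro v _ v' _ h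
    exact g.injective h
  · intro v hv
    refine ⟨g.symm v, ?_, g.apply_symm_apply v⟩
    rw [Finset.mem_filter] at hv ⊢
    refine ⟨Finset.mem_univ _, ?_⟩
    have := (hg (g.symm v)).2
    rw [g.apply_symm_apply] at this
    exact (show wt v.2 = wt (g.symm v).2 from this).symm.trans hv.2
  · intro v _
    rw [MvPolynomial.rename_X]

lemma mf_pw {J : Type} [Fintype J] (wt : J → ℕ) (A : ℕ → J → ℂ) (w n : ℕ) :
    mf N (fam (J := fun _ : Unit => J) (fun _ => A)) (pw wt w) n =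
      mf N A (∑ j ∈ Finset.univ.filter (fun j => wt j = w), MvPolynomial.X j) n := by
  unfold mf
  split_ifs
  · unfold pw
    rw [MvPolynomial.eval₂_sum, MvPolynomial.eval₂_sum]
    refine Finset.sum_congr rfl fun j _ => ?_
    rw [MvPolynomial.eval₂_X, MvPolynomial.eval₂_X]
    rfl
  · rfl

/-- (3) implies (2) -/
lemma three_two
    (h : ∀ (I : Type) [Fintype I] (X : I → Scheme.{0}) (J : I → Type) [∀ i, Fintype (J i)]
      (wt : ∀ i, J i → ℕ) (A : ∀ i, ℕ → J i → ℂ), (∀ i, Weights N (X i) (wt i) (A i)) →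
      ∀ f : MvPolynomial (Σ i, J i) ℤ, Sym wt f → Continues (LPoly N (fam A) f))
    (X : Scheme.{0}) (J : Type) [Fintype J] (wt : J → ℕ) (A : ℕ → J → ℂ)
    (hW : Weights N X wt A) (w : ℕ) : Continues (LWeight N wt A w) := by
  have hW' : ∀ i : Unit, Weights N X wt A := fun _ => hW
  have h1 := h Unit (fun _ => X) (fun _ => J) (fun _ => wt) (fun _ => A) hW' (pw wt w) (sym_pw wt w)
  have h2 := mero_of_continues h1 (lpoly_eq
    (norm_fam (I := Unit) (X := fun _ => X) (J := fun _ => J) (wt := fun _ => wt)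
      (A := fun _ => A) hW') (pw wt w))
  have h3 := h2.congr (c' := mf N A (∑ j ∈ Finset.univ.filter (fun j => wt j = w),
    MvPolynomial.X j)) (fun n _ => mf_pw wt A w n)
  exact Continues.of_mero h3 (lweight_eq hW.norm w)

/-- the unconditional factorisation -/
lemma core (hs : HSys N H) (hCl : ∀ c, Cl N c → H c)
    (hcore : ∀ c, H c → Growth c → (∀ n, ¬ Good N n → c n = 0) → ∀ K : ℝ,
      ∃ (a b : ℕ → ℂ) (j : ℕ) (E : ℂ → ℂ), Cl N a ∧ Cl N b ∧
        AnalyticOnNhd ℂ E {s | K < s.re} ∧ (∀ s : ℂ, K < s.re → E s ≠ 0) ∧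
        ∃ σ : ℝ, ∀ s : ℂ, σ < s.re →
          Complex.exp (D c s) * Complex.exp (D b (s + j)) = E s * Complex.exp (D a (s + j)))
    {I : Type} [Fintype I] {X : I → Scheme.{0}} {J : I → Type} [∀ i, Fintype (J i)]
    {wt : ∀ i, J i → ℕ} {A : ∀ i, ℕ → J i → ℂ} (hW : ∀ i, Weights N (X i) (wt i) (A i))
    (f : MvPolynomial (Σ i, J i) ℤ) (hf : Sym wt f) (K : ℝ) :
    ∃ (Y Z : Scheme.{0}) (j : ℕ) (E : ℂ → ℂ), Pure N Y ∧ Pure N Z ∧
      AnalyticOnNhd ℂ E {s | K < s.re} ∧ (∀ s : ℂ, K < s.re → E s ≠ 0) ∧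
      ∃ σ : ℝ, ∀ s : ℂ, σ < s.re →
        LPoly N (fam A) f s * zeta Z (s + j) = E s * zeta Y (s + j) := by
  obtain ⟨a, b, j, E, ha, hb, hE, hE0, σ, hσ⟩ :=
    hcore _ (H_mf hs hCl hW f hf) (growth_mf (norm_fam hW) f) (mf_bad _ f) K
  obtain ⟨Y, hY, σ1, h1⟩ := exists_pure ha
  obtain ⟨Z, hZ, σ2, h2⟩ := exists_pure hb
  obtain ⟨σ3, h3⟩ := lpoly_eq (norm_fam hW) f
  refine ⟨Y, Z, j, E, hY, hZ, hE, hE0, max (max σ σ3) (max σ1 σ2), fun s hs => ?_⟩
  have hs0 : σ < s.re := lt_of_le_of_lt ((le_max_left _ _).trans (le_max_left _ _)) hs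
  have hs3 : σ3 < s.re := lt_of_le_of_lt ((le_max_right _ _).trans (le_max_left _ _)) hs
  have hs1 : σ1 < s.re := lt_of_le_of_lt ((le_max_left _ _).trans (le_max_right _ _)) hs
  have hs2 : σ2 < s.re := lt_of_le_of_lt ((le_max_right _ _).trans (le_max_right _ _)) hs
  have hj : s.re ≤ (s + (j : ℂ)).re := by
    rw [Complex.add_re, Complex.natCast_re]
    have : (0 : ℝ) ≤ j := Nat.cast_nonneg j
    linarith
  rw [h1 _ (hs1.trans_le hj), h2 _ (hs2.trans_le hj), h3 _ hs3]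
  exact hσ s hs0

end Pool.Agent.HW3
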