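import Pool.Agent.HW3.Fin2
import Pool.Agent.HW3.Wei
import Pool.Agent.HW.Core
import Pool.Agent.HW.Glue
import Pool.Agent.HW.Real
import Pool.Agent.HW.ST

/-!
# Analytic consequences for the completed ring
-/

set_option autoImplicit false

open AlgebraicGeometry Filter Topology
open Pool.Agent.Helper29.Zeta Pool.Agent.HW

namespace Pool.Agent.HW3

variable {N : ℕ}

lemma Cl.bad {c : ℕ → ℂ} (h : Cl N c) {n : ℕ} (hn : IsPrimePow n) (hb : ¬ Good N n) : c n = 0 := by
  obtain ⟨-, J, _, wt, A, hW⟩ := h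
  obtain ⟨p, k, hp, hk, rfl⟩ := hn
  refine hW.bad p k hp.nat_prime ?_ hk
  by_contra hN
  exact hb (good_iff.2 ⟨p, k, hp.nat_prime, hN, hk, rfl⟩)

/-- an approximation by a virtual count, with zeros at the bad prime powers -/
lemma Hat.approx {c : ℕ → ℂ} (h : Hat N c) (x : ℝ) : ∃ (a b r : ℕ → ℂ) (j : ℕ), Cl N a ∧ Cl N b ∧
    (∀ n : ℕ, IsPrimePow n → (n : ℂ) ^ j * r n = a n - b n) ∧ (∀ n, ¬ Good N n → r n = 0) ∧
    Bd N x (fun n => c n - r n) := by
  classical
  obtain ⟨r, ⟨a, b, j, ha, hb, hr⟩, hbd⟩ := h x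
  refine ⟨a, b, fun n => if Good N n then r n else 0, j, ha, hb, ?_, fun n hn => if_neg hn, ?_⟩
  · intro n hn
    by_cases hg : Good N n
    · simp only [if_pos hg]; exact hr n hg
    · simp only [if_neg hg]
      rw [ha.bad hn hg, hb.bad hn hg]; ring
  · exact hbd.congr fun n hn => by simp only [if_pos hn]

theorem hat_mero (hm : ∀ c, Cl N c → Mero c) (c : ℕ → ℂ) (h : Hat N c) (hg : Growth c)
    (hbad : ∀ n, ¬ Good N n → c n = 0) : Mero c := by
  refine mero_of_approx hg fun K => ?_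
  obtain ⟨a, b, r, j, ha, hb, hr, hr0, C, hC⟩ := h.approx (-(K : ℝ))
  have hag := ha.1.growth
  have hbg := hb.1.growth
  have h1 : Mero (fun n => (n : ℂ) ^ j * r n) :=
    ((hm a ha).sub hag hbg (hm b hb)).congr fun n hn => (hr n hn).symm
  have h2 : Growth (fun n => (n : ℂ) ^ j * r n) :=
    (hag.sub hbg).congr fun n hn => (hr n hn).symm
  refine ⟨r, Mero.of_shift_pow j h1, ?_, |C|, fun n hn => ?_⟩
  · obtain ⟨D, d, hD⟩ := h2
    refine ⟨D, d, fun n hn => le_trans ?_ (hD n hn)⟩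
    have hn1 : (1 : ℝ) ≤ n := by exact_mod_cast hn.pos
    rw [norm_mul, norm_pow, Complex.norm_natCast]
    exact le_mul_of_one_le_left (norm_nonneg _) (one_le_pow₀ hn1)
  · by_cases hgood : Good N n
    · exact (hC n hgood).trans (mul_le_mul_of_nonneg_right (le_abs_self C) (by positivity))
    · rw [hbad n hgood, hr0 n hgood, sub_zero, norm_zero]; positivity

theorem hat_core (c : ℕ → ℂ) (h : Hat N c) (hg : Growth c)
    (hbad : ∀ n, ¬ Good N n → c n = 0) (K : ℝ) :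
    ∃ (a b : ℕ → ℂ) (j : ℕ) (E : ℂ → ℂ), Cl N a ∧ Cl N b ∧
        AnalyticOnNhd ℂ E {s | K < s.re} ∧ (∀ s : ℂ, K < s.re → E s ≠ 0) ∧
        ∃ σ : ℝ, ∀ s : ℂ, σ < s.re →
          Complex.exp (D c s) * Complex.exp (D b (s + j)) = E s * Complex.exp (D a (s + j)) := by
  obtain ⟨a, b, r, j, ha, hb, hr, hr0, C, hC⟩ := h.approx (K - 1)
  obtain ⟨E, hE, hE0, hσ⟩ := core_step hg ha.1.growth hb.1.growth j (C := |C|) (θ := K - 1) (by
    intro n hn
    have hn0 : (0 : ℝ) < n := by exact_mod_cast hn.pos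
    rw [← hr n hn, ← mul_sub, norm_mul, norm_pow, Complex.norm_natCast, Real.rpow_add hn0,
      Real.rpow_natCast]
    by_cases hgood : Good N n
    · have h1 := (hC n hgood).trans (mul_le_mul_of_nonneg_right (le_abs_self C)
        (Real.rpow_nonneg hn0.le _))
      calc (n : ℝ) ^ j * ‖c n - r n‖ ≤ (n : ℝ) ^ j * (|C| * (n : ℝ) ^ (K - 1)) :=
            mul_le_mul_of_nonneg_left h1 (by positivity)
        _ = _ := by ring
    · rw [hbad n hgood, hr0 n hgood, sub_zero, norm_zero, mul_zero]; positivity)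
  refine ⟨a, b, j, E, ha, hb, ?_, fun s _ => hE0 s, hσ⟩
  rw [sub_add_cancel] at hE
  exact hE

/-- the moments -/
theorem moments (h : ∀ X : Scheme.{0}, Pure N X → Continues (zeta X))
    {I : Type} [Fintype I] {X : I → Scheme.{0}} {J : I → Type} [∀ i, Fintype (J i)]
    {wt : ∀ i, J i → ℕ} {A : ∀ i, ℕ → J i → ℂ} (hW : ∀ i, Weights N (X i) (wt i) (A i))
    (f : MvPolynomial (Σ i, J i) ℤ) (hf : Sym wt f) (w : ℕ)
    (hw : ∀ m ∈ f.support, ∑ v, m v * wt v.1 v.2 ≤ w) :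
    ∃ r : ℤ, Tendsto (fun s : ℝ => (∑' p : {p : ℕ // p.Prime ∧ ¬ p ∣ N},
      MvPolynomial.eval₂ (Int.castRingHom ℂ) (fam A p) f * (p.1 : ℂ) ^ (-(((w : ℝ) / 2 + s : ℝ) : ℂ))) /
        (Real.log (1 / (s - 1)) : ℂ)) (𝓝[>] 1) (𝓝 (r : ℂ)) := by
  have hmero : Mero (mf N (fam A) f) :=
    one_three (hsys N) (fun c hc => hat_of_cl hc) (fun hm c hH hg hb => hat_mero hm c hH hg hb)
      h hW f hf
  have heval : ∀ p : ℕ, MvPolynomial.eval₂ (Int.castRingHom ℂ) (fam A p) f =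
      ∑ t : f.support, ((f.coeff t.1 : ℤ) : ℂ) * ∏ v, fam A p v ^ t.1 v := by
    intro p
    rw [MvPolynomial.eval₂_eq', ← Finset.sum_coe_sort f.support]
    rfl
  obtain ⟨r, hr⟩ := dirichlet_average N (fun t : f.support => f.coeff t.1)
    (fun p t => ∏ v, fam A p v ^ t.1 v) w (by
      intro p hp hN t
      have hp0 : (0 : ℝ) < p := by exact_mod_cast hp.pos
      have hp1 : (1 : ℝ) ≤ p := by exact_mod_cast hp.one_lt.le
      rw [norm_prod]
      have h1 : ∀ v, ‖fam A p v ^ t.1 v‖ = (p : ℝ) ^ (((t.1 v * wt v.1 v.2 : ℕ) : ℝ) / 2) := by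
        intro v
        rw [norm_pow, norm_fam hW p hp hN v, ← Real.rpow_natCast, ← Real.rpow_mul hp0.le]
        congr 1
        push_cast; ring
      rw [Finset.prod_congr rfl (fun v _ => h1 v), ← Real.rpow_sum_of_pos hp0, ← Finset.sum_div]
      refine Real.rpow_le_rpow_of_exponent_le hp1 ?_
      have h2 : ((∑ v, t.1 v * wt v.1 v.2 : ℕ) : ℝ) ≤ w := by exact_mod_cast hw t.1 t.2
      push_cast at h2 ⊢
      linarith) (by
      intro p hp hN
      rw [← heval p]
      refine family_real hp.one_lt J wt (fun i j => A i p j)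
        (fun i j => (hW i).norm p hp hN j) ?_ f hf
      intro i k hk
      have h1 := (hW i).weil.good p k hp hN hk
      rw [← h1, Complex.natCast_im])
    (mf N (fam A) f) (mf_pow N (fam A) f) hmero
  refine ⟨r, ?_⟩
  simp only [heval]
  exact hr

end Pool.Agent.HW3
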