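import Pool.Agent.HW3.Asm2
import Pool.Agent.HW.Brg

/-!
# The completed ring
-/

set_option autoImplicit false

open PowerSeries
open Pool.Agent.Helper29.Zeta Pool.Agent.HW

namespace Pool.Agent.HW3

variable {N : ℕ}

/-- bounds -/
def Bd (N : ℕ) (x : ℝ) (c : ℕ → ℂ) : Prop := ∃ C : ℝ, ∀ n, Good N n → ‖c n‖ ≤ C * (n : ℝ) ^ x

/-- differences of counting functions divided by powers of `n` -/
def Vir (N : ℕ) (c : ℕ → ℂ) : Prop :=
  ∃ (a b : ℕ → ℂ) (j : ℕ), Cl N a ∧ Cl N b ∧ ∀ n, Good N n → (n : ℂ) ^ j * c n = a n - b n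

/-- approximation up to `n ^ x` -/
def App (N : ℕ) (x : ℝ) (c : ℕ → ℂ) : Prop := ∃ r, Vir N r ∧ Bd N x (fun n => c n - r n)

/-- the completed ring -/
def Hat (N : ℕ) (c : ℕ → ℂ) : Prop := ∀ x : ℝ, App N x c

/-! ### bounds -/

lemma Bd.congr {x : ℝ} {c c' : ℕ → ℂ} (h : Bd N x c) (hc : ∀ n, Good N n → c n = c' n) :
    Bd N x c' := by
  obtain ⟨C, hC⟩ := h
  exact ⟨C, fun n hn => by rw [← hc n hn]; exact hC n hn⟩

lemma Bd.mono {x y : ℝ} {c : ℕ → ℂ} (h : Bd N x c) (hxy : x ≤ y) : Bd N y c := by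
  obtain ⟨C, hC⟩ := h
  refine ⟨|C|, fun n hn => ?_⟩
  have h1 : (1 : ℝ) ≤ n := by exact_mod_cast hn.pos
  refine (hC n hn).trans ?_
  refine mul_le_mul (le_abs_self C) (Real.rpow_le_rpow_of_exponent_le h1 hxy)
    (by positivity) (abs_nonneg C)

lemma Bd.add {x : ℝ} {c c' : ℕ → ℂ} (h : Bd N x c) (h' : Bd N x c') :
    Bd N x (fun n => c n + c' n) := by
  obtain ⟨C, hC⟩ := h
  obtain ⟨C', hC'⟩ := h'
  refine ⟨C + C', fun n hn => ?_⟩
  rw [add_mul]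
  exact (norm_add_le _ _).trans (add_le_add (hC n hn) (hC' n hn))

lemma Bd.neg {x : ℝ} {c : ℕ → ℂ} (h : Bd N x c) : Bd N x (fun n => - c n) := by
  obtain ⟨C, hC⟩ := h
  exact ⟨C, fun n hn => by rw [norm_neg]; exact hC n hn⟩

lemma Bd.mul {x y : ℝ} {c c' : ℕ → ℂ} (h : Bd N x c) (h' : Bd N y c') :
    Bd N (x + y) (fun n => c n * c' n) := by
  obtain ⟨C, hC⟩ := h
  obtain ⟨C', hC'⟩ := h'
  refine ⟨|C| * |C'|, fun n hn => ?_⟩
  have hn0 : (0 : ℝ) < n := by exact_mod_cast hn.pos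
  rw [norm_mul, Real.rpow_add hn0]
  have h1 := (hC n hn).trans (mul_le_mul_of_nonneg_right (le_abs_self C)
    (Real.rpow_nonneg hn0.le x))
  have h2 := (hC' n hn).trans (mul_le_mul_of_nonneg_right (le_abs_self C')
    (Real.rpow_nonneg hn0.le y))
  refine (mul_le_mul h1 h2 (norm_nonneg _) (by positivity)).trans (le_of_eq (by ring))

lemma Bd.zero (x : ℝ) : Bd N x (fun _ => 0) := ⟨0, fun n _ => by simp⟩

lemma Bd.one {x : ℝ} (hx : 0 ≤ x) : Bd N x (fun _ => 1) := by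
  refine Bd.mono (x := 0) ⟨1, fun n _ => by simp⟩ hx

lemma Bd.sum {x : ℝ} {T : Type*} (s : Finset T) {c : T → ℕ → ℂ} (h : ∀ t ∈ s, Bd N x (c t)) :
    Bd N x (fun n => ∑ t ∈ s, c t n) := by
  classical
  induction s using Finset.induction_on with
  | empty => simpa using Bd.zero x
  | insert a s ha ih =>
    refine Bd.congr ((h a (Finset.mem_insert_self a s)).add
      (ih fun t ht => h t (Finset.mem_insert_of_mem ht))) (fun n _ => ?_)
    rw [Finset.sum_insert ha]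

/-! ### virtual counts -/

lemma cl_ind : Cl N (ind N) := ⟨IsCount.coprime N, isPure_ind N⟩

lemma cl_zero : Cl N (fun _ => 0) := ⟨IsCount.zero, IsPure.zero N⟩

lemma Cl.add {c c' : ℕ → ℂ} (h : Cl N c) (h' : Cl N c') : Cl N (fun n => c n + c' n) :=
  ⟨h.1.add h'.1, h.2.add h'.2⟩

lemma Cl.mul {c c' : ℕ → ℂ} (h : Cl N c) (h' : Cl N c') : Cl N (fun n => c n * c' n) :=
  ⟨h.1.mul h'.1, h.2.mul h'.2⟩

lemma Cl.q {c : ℕ → ℂ} (h : Cl N c) : Cl N (fun n => (n : ℂ) * c n) :=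
  ⟨IsCount.q.mul h.1, h.2.q⟩

lemma Cl.qpow {c : ℕ → ℂ} (h : Cl N c) (j : ℕ) : Cl N (fun n => (n : ℂ) ^ j * c n) := by
  induction j with
  | zero => simpa using h
  | succ j ih =>
    have := ih.q
    refine ⟨this.1.congr fun n _ => ?_, this.2.congr fun n _ => ?_⟩ <;> ring

lemma Cl.real {c : ℕ → ℂ} (h : Cl N c) {n : ℕ} (hn : Good N n) :
    (starRingEnd ℂ) (c n) = c n := by
  obtain ⟨A, _, _, hA⟩ := h.1
  rw [hA n hn.1]
  exact Complex.conj_natCast _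

lemma ind_of_good {n : ℕ} (hn : Good N n) : ind N n = 1 := if_pos hn.2

lemma Vir.of_cl {c : ℕ → ℂ} (h : Cl N c) : Vir N c :=
  ⟨c, fun _ => 0, 0, h, cl_zero, fun n _ => by ring⟩

lemma Vir.congr {c c' : ℕ → ℂ} (h : Vir N c) (hc : ∀ n, Good N n → c n = c' n) : Vir N c' := by
  obtain ⟨a, b, j, ha, hb, h⟩ := h
  exact ⟨a, b, j, ha, hb, fun n hn => by rw [← hc n hn]; exact h n hn⟩

lemma Vir.zero : Vir N (fun _ => 0) := Vir.of_cl cl_zero

lemma Vir.one : Vir N (fun _ => 1) := (Vir.of_cl cl_ind).congr fun _ hn => ind_of_good hn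

lemma Vir.add {c c' : ℕ → ℂ} (h : Vir N c) (h' : Vir N c') : Vir N (fun n => c n + c' n) := by
  obtain ⟨a, b, j, ha, hb, h⟩ := h
  obtain ⟨a', b', j', ha', hb', h'⟩ := h'
  refine ⟨_, _, j + j', (ha.qpow j').add (ha'.qpow j), (hb.qpow j').add (hb'.qpow j),
    fun n hn => ?_⟩
  have e : (n : ℂ) ^ (j + j') * (c n + c' n) =
      (n : ℂ) ^ j' * ((n : ℂ) ^ j * c n) + (n : ℂ) ^ j * ((n : ℂ) ^ j' * c' n) := by ring
  rw [e, h n hn, h' n hn]; ring

lemma Vir.neg {c : ℕ → ℂ} (h : Vir N c) : Vir N (fun n => - c n) := by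
  obtain ⟨a, b, j, ha, hb, h⟩ := h
  refine ⟨b, a, j, hb, ha, fun n hn => ?_⟩
  rw [mul_neg, h n hn]; ring

lemma Vir.mul {c c' : ℕ → ℂ} (h : Vir N c) (h' : Vir N c') : Vir N (fun n => c n * c' n) := by
  obtain ⟨a, b, j, ha, hb, h⟩ := h
  obtain ⟨a', b', j', ha', hb', h'⟩ := h'
  refine ⟨_, _, j + j', (ha.mul ha').add (hb.mul hb'), (ha.mul hb').add (hb.mul ha'),
    fun n hn => ?_⟩
  have e : (n : ℂ) ^ (j + j') * (c n * c' n) =
      ((n : ℂ) ^ j * c n) * ((n : ℂ) ^ j' * c' n) := by ring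
  rw [e, h n hn, h' n hn]; ring

/-- division by a power of `n` -/
lemma Vir.div {c : ℕ → ℂ} (h : Vir N c) (i : ℕ) : Vir N (fun n => c n / (n : ℂ) ^ i) := by
  obtain ⟨a, b, j, ha, hb, h⟩ := h
  refine ⟨a, b, j + i, ha, hb, fun n hn => ?_⟩
  have hn0 : (n : ℂ) ≠ 0 := by exact_mod_cast hn.pos.ne'
  rw [← h n hn, pow_add]
  field_simp

lemma Vir.real {c : ℕ → ℂ} (h : Vir N c) {n : ℕ} (hn : Good N n) :
    (starRingEnd ℂ) (c n) = c n := by
  obtain ⟨a, b, j, ha, hb, h⟩ := h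
  have hn0 : (n : ℂ) ^ j ≠ 0 := pow_ne_zero _ (by exact_mod_cast hn.pos.ne')
  apply mul_left_cancel₀ hn0
  have h1 := congrArg (starRingEnd ℂ) (h n hn)
  rw [map_mul, map_sub, map_pow, Complex.conj_natCast, ha.real hn, hb.real hn] at h1
  rw [h1, h n hn]

/-! ### approximation -/

lemma App.congr {x : ℝ} {c c' : ℕ → ℂ} (h : App N x c) (hc : ∀ n, Good N n → c n = c' n) :
    App N x c' := by
  obtain ⟨r, hr, hb⟩ := h
  exact ⟨r, hr, hb.congr fun n hn => by rw [hc n hn]⟩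

lemma App.mono {x y : ℝ} {c : ℕ → ℂ} (h : App N x c) (hxy : x ≤ y) : App N y c := by
  obtain ⟨r, hr, hb⟩ := h
  exact ⟨r, hr, hb.mono hxy⟩

lemma App.of_bd {x : ℝ} {c : ℕ → ℂ} (h : Bd N x c) : App N x c :=
  ⟨_, Vir.zero, h.congr fun n _ => by ring⟩

lemma Hat.of_vir {c : ℕ → ℂ} (h : Vir N c) : Hat N c := fun x =>
  ⟨c, h, (Bd.zero x).congr fun n _ => by ring⟩

lemma App.add {x : ℝ} {c c' : ℕ → ℂ} (h : App N x c) (h' : App N x c') :
    App N x (fun n => c n + c' n) := by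
  obtain ⟨r, hr, hb⟩ := h
  obtain ⟨r', hr', hb'⟩ := h'
  exact ⟨_, hr.add hr', (hb.add hb').congr fun n _ => by ring⟩

lemma App.neg {x : ℝ} {c : ℕ → ℂ} (h : App N x c) : App N x (fun n => - c n) := by
  obtain ⟨r, hr, hb⟩ := h
  exact ⟨_, hr.neg, hb.neg.congr fun n _ => by ring⟩

lemma App.sum {x : ℝ} {T : Type*} (s : Finset T) {c : T → ℕ → ℂ} (h : ∀ t ∈ s, App N x (c t)) :
    App N x (fun n => ∑ t ∈ s, c t n) := by
  classical
  induction s using Finset.induction_on with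
  | empty => simpa using App.of_bd (Bd.zero x)
  | insert a s ha ih =>
    refine App.congr ((h a (Finset.mem_insert_self a s)).add
      (ih fun t ht => h t (Finset.mem_insert_of_mem ht))) (fun n _ => ?_)
    rw [Finset.sum_insert ha]

/-- products -/
lemma App.mul {x y a b z : ℝ} {c c' : ℕ → ℂ} (h : App N x c) (h' : App N y c')
    (hc : Bd N a c) (hc' : Bd N b c') (hxa : x ≤ a) (h1 : x + b ≤ z) (h2 : a + y ≤ z) :
    App N z (fun n => c n * c' n) := by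
  obtain ⟨r, hr, hb⟩ := h
  obtain ⟨r', hr', hb'⟩ := h'
  have hra : Bd N a r := (hc.add (hb.mono hxa).neg).congr fun n _ => by ring
  refine ⟨_, hr.mul hr', (((hb.mul hc').mono h1).add ((hra.mul hb').mono h2)).congr
    fun n _ => ?_⟩
  ring

lemma App.conj {x : ℝ} {c : ℕ → ℂ} (h : App N x c) :
    App N x (fun n => (starRingEnd ℂ) (c n)) := by
  obtain ⟨r, hr, C, hC⟩ := h
  refine ⟨r, hr, C, fun n hn => ?_⟩
  have h1 : (starRingEnd ℂ) (c n) - r n = (starRingEnd ℂ) (c n - r n) := by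
    rw [map_sub, hr.real hn]
  dsimp only
  rw [h1, Complex.norm_conj]
  exact hC n hn

lemma Bd.conj {x : ℝ} {c : ℕ → ℂ} (h : Bd N x c) :
    Bd N x (fun n => (starRingEnd ℂ) (c n)) := by
  obtain ⟨C, hC⟩ := h
  exact ⟨C, fun n hn => by rw [Complex.norm_conj]; exact hC n hn⟩

lemma App.div {x : ℝ} {c : ℕ → ℂ} (h : App N x c) (i : ℕ) :
    App N (x - i) (fun n => c n / (n : ℂ) ^ i) := by
  obtain ⟨r, hr, C, hC⟩ := h
  refine ⟨_, hr.div i, C, fun n hn => ?_⟩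
  have hn0 : (0 : ℝ) < n := by exact_mod_cast hn.pos
  dsimp only
  rw [← sub_div, norm_div, norm_pow, Complex.norm_natCast, Real.rpow_sub hn0, Real.rpow_natCast,
    mul_div_assoc']
  exact div_le_div_of_nonneg_right (hC n hn) (by positivity)

lemma Bd.div {x : ℝ} {c : ℕ → ℂ} (h : Bd N x c) (i : ℕ) :
    Bd N (x - i) (fun n => c n / (n : ℂ) ^ i) := by
  obtain ⟨C, hC⟩ := h
  refine ⟨C, fun n hn => ?_⟩
  have hn0 : (0 : ℝ) < n := by exact_mod_cast hn.pos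
  rw [norm_div, norm_pow, Complex.norm_natCast, Real.rpow_sub hn0, Real.rpow_natCast,
    mul_div_assoc']
  exact div_le_div_of_nonneg_right (hC n hn) (by positivity)

end Pool.Agent.HW3
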