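import Pool.Agent.HW3.Desc

/-!
# All blocks of Weil numbers lie in the completed ring
-/

set_option autoImplicit false

open PowerSeries

namespace Pool.Agent.HW3

/-- a ring of functions on the good prime powers for which the factorisation theorem holds -/
structure HSys (N : ℕ) (H : (ℕ → ℂ) → Prop) : Prop where
  congr : ∀ c c' : ℕ → ℂ, (∀ n, Good N n → c n = c' n) → H c → H c'
  one : H (fun _ => 1)
  add : ∀ c c' : ℕ → ℂ, H c → H c' → H (fun n => c n + c' n)
  neg : ∀ c : ℕ → ℂ, H c → H (fun n => - c n)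
  mul : ∀ c c' : ℕ → ℂ, H c → H c' → H (fun n => c n * c' n)
  weier : ∀ (w b : ℕ) (F E U : ℕ → PowerSeries ℂ), (∀ n, Good N n → F n = E n * U n) →
    (∀ m, H fun n => coeff m (F n)) →
    (∀ n, Good N n → coeff 0 (E n) = 1) → (∀ n, Good N n → coeff 0 (U n) = 1) →
    (∀ m, b < m → ∀ n, Good N n → coeff m (E n) = 0) →
    (∀ n, Good N n → ‖coeff b (E n)‖ = (n : ℝ) ^ ((w : ℝ) * b / 2)) →
    BS N w E → BS N (w - 1) U →
    (∀ m, H fun n => coeff m (E n)) ∧ ∀ m, H fun n => coeff m (U n)

namespace HSys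

variable {N : ℕ} {H : (ℕ → ℂ) → Prop}

lemma zero (h : HSys N H) : H (fun _ => 0) :=
  h.congr _ _ (fun n _ => by ring) (h.add _ _ h.one (h.neg _ h.one))

lemma sum (h : HSys N H) {T : Type*} (s : Finset T) (c : T → ℕ → ℂ) (hc : ∀ t ∈ s, H (c t)) :
    H (fun n => ∑ t ∈ s, c t n) := by
  classical
  induction s using Finset.induction_on with
  | empty => simpa using h.zero
  | insert a s ha ih =>
    refine h.congr _ _ (fun n _ => ?_) (h.add _ _ (hc a (Finset.mem_insert_self a s))
      (ih fun t ht => hc t (Finset.mem_insert_of_mem ht)))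
    rw [Finset.sum_insert ha]

lemma prod (h : HSys N H) {T : Type*} (s : Finset T) (c : T → ℕ → ℂ) (hc : ∀ t ∈ s, H (c t)) :
    H (fun n => ∏ t ∈ s, c t n) := by
  classical
  induction s using Finset.induction_on with
  | empty => simpa using h.one
  | insert a s ha ih =>
    refine h.congr _ _ (fun n _ => ?_) (h.mul _ _ (hc a (Finset.mem_insert_self a s))
      (ih fun t ht => hc t (Finset.mem_insert_of_mem ht)))
    rw [Finset.prod_insert ha]

/-- the coefficients of the inverse -/
lemma inv (h : HSys N H) {G G' : ℕ → PowerSeries ℂ} (hG : ∀ n, Good N n → G n * G' n = 1)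
    (h0 : ∀ n, Good N n → coeff 0 (G n) = 1) (hH : ∀ m, H fun n => coeff m (G n)) (m : ℕ) :
    H fun n => coeff m (G' n) := by
  induction m using Nat.strong_induction_on with
  | _ m ih =>
    rcases Nat.eq_zero_or_pos m with rfl | hm
    · refine h.congr _ _ (fun n hn => ?_) h.one
      have h1 := congrArg (coeff 0) (hG n hn)
      rw [coeff_zero_eq_constantCoeff_apply, map_mul, ← coeff_zero_eq_constantCoeff_apply,
        ← coeff_zero_eq_constantCoeff_apply, h0 n hn, one_mul, coeff_zero_one] at h1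
      exact h1.symm
    · have key : H fun n => - ∑ l ∈ Finset.range m,
          coeff (l + 1) (G n) * coeff (m - (l + 1)) (G' n) := by
        refine h.neg _ (h.sum _ _ fun l hl => h.mul _ _ (hH _) (ih _ ?_))
        rw [Finset.mem_range] at hl; omega
      refine h.congr _ _ (fun n hn => ?_) key
      have h1 := congrArg (coeff m) (hG n hn)
      rw [coeff_mul, Finset.Nat.sum_antidiagonal_eq_sum_range_succ
        (fun i j => coeff i (G n) * coeff j (G' n)), Finset.sum_range_succ', h0 n hn, one_mul,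
        coeff_one, if_neg hm.ne', Nat.sub_zero] at h1
      linear_combination -h1

end HSys

section main

variable {N : ℕ} {H : (ℕ → ℂ) → Prop} {c : ℕ → ℂ} {J : Type} [Fintype J] {wt : J → ℕ}
  {A : ℕ → J → ℂ}

lemma coeff_zero_prod_lin {T : Type} (s : Finset T) (a : T → ℂ) :
    coeff 0 (∏ j ∈ s, lin (a j)) = 1 := by
  rw [coeff_prod_lin]; simp

lemma coeff_zero_Pw (w n : ℕ) : coeff 0 (Pw wt A w n) = 1 := coeff_zero_prod_lin _ _

lemma coeff_zero_fac (w : ℕ) (a : ℂ) : coeff 0 (fac w a) = 1 := (LD_fac w a).1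

lemma coeff_zero_Zw (w n : ℕ) : coeff 0 (Zw wt A w n) = 1 := by
  unfold Zw
  rw [coeff_zero_eq_constantCoeff_apply, map_prod]
  refine Finset.prod_eq_one fun j _ => ?_
  rw [← coeff_zero_eq_constantCoeff_apply, coeff_zero_fac]

lemma coeff_zero_Zi (w n : ℕ) : coeff 0 (Zi wt A w n) = 1 := by
  unfold Zi
  rw [coeff_zero_eq_constantCoeff_apply, map_prod]
  refine Finset.prod_eq_one fun j _ => ?_
  rw [← coeff_zero_eq_constantCoeff_apply, coeff_zero_fac]

lemma norm_top (h : Weil N c wt A) (w : ℕ) {n : ℕ} (hn : Good N n) :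
    ‖coeff (Finset.univ.filter (fun j => wt j = w)).card (Pw wt A w n)‖ =
      (n : ℝ) ^ ((w : ℝ) * (Finset.univ.filter (fun j => wt j = w)).card / 2) := by
  unfold Pw
  rw [coeff_prod_lin, Finset.powersetCard_self, Finset.sum_singleton, norm_mul, norm_pow,
    norm_neg, norm_one, one_pow, one_mul, norm_prod]
  have hn0 : (0 : ℝ) < n := by exact_mod_cast hn.pos
  rw [Finset.prod_congr rfl (fun j hj => by
    rw [norm_alph h j hn, (Finset.mem_filter.1 hj).2]), Finset.prod_const,
    ← Real.rpow_natCast, ← Real.rpow_mul hn0.le]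
  congr 1; ring

lemma coeff_Pw_big (w n m : ℕ) (hm : (Finset.univ.filter (fun j => wt j = w)).card < m) :
    coeff m (Pw wt A w n) = 0 := by
  unfold Pw
  rw [coeff_prod_lin, Finset.powersetCard_eq_empty.2 hm, Finset.sum_empty, mul_zero]

/-- one step -/
lemma step (hs : HSys N H) (h : Weil N c wt A) (w : ℕ)
    (hZ : ∀ m, H fun n => coeff m (Zw wt A (w + 1) n)) :
    (∀ m, H fun n => coeff m (Zw wt A w n)) ∧ ∀ m, H fun n => coeff m (Pw wt A w n) := by
  by_cases hw : Odd w
  · have key := hs.weier w (Finset.univ.filter (fun j => wt j = w)).card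
      (Zw wt A (w + 1)) (Pw wt A w) (Zw wt A w) (fun n _ => Zw_succ hw n) hZ
      (fun n _ => coeff_zero_Pw w n) (fun n _ => coeff_zero_Zw w n)
      (fun m hm n _ => coeff_Pw_big w n m hm) (fun n hn => norm_top h w hn)
      (BS_Pw h w) (BS_Zw h w)
    exact ⟨key.2, key.1⟩
  · have hZi := hs.inv (G := Zw wt A (w + 1)) (G' := Zi wt A (w + 1))
      (fun n _ => Zw_mul_Zi _ n) (fun n _ => coeff_zero_Zw _ n) hZ
    have key := hs.weier w (Finset.univ.filter (fun j => wt j = w)).card
      (Zi wt A (w + 1)) (Pw wt A w) (Zi wt A w) (fun n _ => Zi_succ hw n) hZi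
      (fun n _ => coeff_zero_Pw w n) (fun n _ => coeff_zero_Zi w n)
      (fun m hm n _ => coeff_Pw_big w n m hm) (fun n hn => norm_top h w hn)
      (BS_Pw h w) (BS_Zi h w)
    refine ⟨hs.inv (G := Zi wt A w) (G' := Zw wt A w) (fun n _ => ?_)
      (fun n _ => coeff_zero_Zi _ n) key.2, key.1⟩
    rw [mul_comm]; exact Zw_mul_Zi _ n

/-- all blocks -/
theorem blocks (hs : HSys N H) (h : Weil N c wt A)
    (hZ : ∀ m, H fun n => coeff m (∏ j, fac (wt j) (alph A j n))) (w : ℕ) :
    ∀ m, H fun n => coeff m (Pw wt A w n) := by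
  obtain ⟨W, hW⟩ : ∃ W, ∀ j, wt j < W :=
    ⟨Finset.univ.sup wt + 1, fun j => Nat.lt_succ_of_le (Finset.le_sup (Finset.mem_univ j))⟩
  have hfull : ∀ w, W ≤ w → ∀ n, Zw wt A w n = ∏ j, fac (wt j) (alph A j n) := by
    intro w hw n
    unfold Zw
    rw [Finset.filter_true_of_mem]
    intro j _
    exact (hW j).trans_le hw
  have hall : ∀ k w, w + k = W → ∀ m, H fun n => coeff m (Zw wt A w n) := by
    intro k
    induction k with
    | zero =>
      intro w hw m
      refine hs.congr _ _ (fun n _ => ?_) (hZ m)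
      rw [hfull w (by omega)]
    | succ k ih =>
      intro w hw
      exact (step hs h w (ih (w + 1) (by omega))).1
  by_cases hw : w < W
  · exact (step hs h w (hall (W - (w + 1)) (w + 1) (by omega))).2
  · intro m
    have h1 : Finset.univ.filter (fun j => wt j = w) = ∅ := by
      rw [Finset.filter_eq_empty_iff]
      intro j _ hj
      exact hw (hj ▸ hW j)
    have h2 : ∀ n, coeff m (Pw wt A w n) = if m = 0 then 1 else 0 := by
      intro n
      unfold Pw
      rw [h1, Finset.prod_empty, coeff_one]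
    by_cases hm : m = 0
    · exact hs.congr _ _ (fun n _ => by rw [h2, if_pos hm]) hs.one
    · exact hs.congr _ _ (fun n _ => by rw [h2, if_neg hm]) hs.zero

/-- the elementary symmetric functions of the blocks -/
theorem esymm_mem (hs : HSys N H) (h : Weil N c wt A)
    (hZ : ∀ m, H fun n => coeff m (∏ j, fac (wt j) (alph A j n))) (w m : ℕ) :
    H fun n => ∑ t ∈ (Finset.univ.filter (fun j => wt j = w)).powersetCard m,
      ∏ j ∈ t, alph A j n := by
  rcases Nat.even_or_odd m with hm | hm
  · refine hs.congr _ _ (fun n _ => ?_) (blocks hs h hZ w m)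
    unfold Pw
    rw [coeff_prod_lin, hm.neg_one_pow, one_mul]
  · refine hs.congr _ _ (fun n _ => ?_) (hs.neg _ (blocks hs h hZ w m))
    unfold Pw
    rw [coeff_prod_lin, hm.neg_one_pow]
    ring

end main

end Pool.Agent.HW3
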