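import Mathlib

/-!
# Power series with a given logarithmic derivative
-/

set_option autoImplicit false

open PowerSeries

namespace Pool.Agent.HW3

/-- `X g' = g (S 1 X + S 2 X ^ 2 + ...)` and `g(0) = 1` -/
def LD (g : PowerSeries ℂ) (S : ℕ → ℂ) : Prop :=
  coeff 0 g = 1 ∧ X * derivative ℂ g = g * (X * mk fun l => S (l + 1))

lemma LD.one : LD 1 (fun _ => 0) := by
  refine ⟨by simp, ?_⟩
  have : (mk fun _ => (0 : ℂ)) = (0 : PowerSeries ℂ) := by ext; simp
  rw [this]; simp

lemma LD.mul {g h : PowerSeries ℂ} {S T : ℕ → ℂ} (hg : LD g S) (hh : LD h T) :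
    LD (g * h) (fun l => S l + T l) := by
  refine ⟨?_, ?_⟩
  · rw [coeff_zero_eq_constantCoeff_apply, map_mul, ← coeff_zero_eq_constantCoeff_apply,
      ← coeff_zero_eq_constantCoeff_apply, hg.1, hh.1, one_mul]
  · have e : (mk fun l => S (l + 1) + T (l + 1)) =
        (mk fun l => S (l + 1)) + mk fun l => T (l + 1) := by ext; simp
    rw [Derivation.leibniz, smul_eq_mul, smul_eq_mul, e, mul_add, mul_add, mul_left_comm X g,
      hh.2, mul_left_comm X h, hg.2]
    ring

lemma LD.congr {g : PowerSeries ℂ} {S T : ℕ → ℂ} (hg : LD g S) (h : ∀ l, 0 < l → S l = T l) :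
    LD g T := by
  refine ⟨hg.1, ?_⟩
  rw [hg.2]
  congr 3
  funext l
  exact h _ l.succ_pos

lemma LD.prod {J : Type*} (s : Finset J) {g : J → PowerSeries ℂ} {S : J → ℕ → ℂ}
    (h : ∀ j ∈ s, LD (g j) (S j)) : LD (∏ j ∈ s, g j) (fun l => ∑ j ∈ s, S j l) := by
  classical
  induction s using Finset.induction_on with
  | empty => simpa using LD.one
  | insert a s ha ih =>
    rw [Finset.prod_insert ha]
    have h1 := (h a (Finset.mem_insert_self a s)).mul
      (ih fun j hj => h j (Finset.mem_insert_of_mem hj))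
    exact h1.congr fun l _ => by rw [Finset.sum_insert ha]

/-- the recursion -/
lemma LD.rec {g : PowerSeries ℂ} {S : ℕ → ℂ} (hg : LD g S) (m : ℕ) :
    (m : ℂ) * coeff m g = ∑ l ∈ Finset.range m, S (l + 1) * coeff (m - (l + 1)) g := by
  cases m with
  | zero => simp
  | succ m =>
    have h := congrArg (coeff (m + 1)) hg.2
    rw [coeff_succ_X_mul, coeff_derivative, mul_left_comm, coeff_succ_X_mul, mul_comm g,
      coeff_mul, Finset.Nat.sum_antidiagonal_eq_sum_range_succ
        (fun i j => coeff i (mk fun l => S (l + 1)) * coeff j g)] at h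
    rw [mul_comm, Nat.cast_add, Nat.cast_one, h]
    refine Finset.sum_congr rfl fun l _ => ?_
    rw [coeff_mk, Nat.add_sub_add_right]

/-- uniqueness -/
lemma LD.unique {g : PowerSeries ℂ} {S : ℕ → ℂ} (hg : LD g S) {σ : ℕ → ℂ} (h0 : σ 0 = 1)
    (h : ∀ m : ℕ, 0 < m → (m : ℂ) * σ m = ∑ l ∈ Finset.range m, S (l + 1) * σ (m - (l + 1)))
    (m : ℕ) :
    σ m = coeff m g := by
  induction m using Nat.strong_induction_on with
  | _ m ih =>
    rcases Nat.eq_zero_or_pos m with rfl | hm
    · rw [h0, hg.1]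
    · have hm' : (m : ℂ) ≠ 0 := Nat.cast_ne_zero.2 hm.ne'
      apply mul_left_cancel₀ hm'
      rw [h m hm, hg.rec m]
      refine Finset.sum_congr rfl fun l hl => ?_
      rw [ih _ (by omega)]

/-- `1 - a X` -/
noncomputable def lin (a : ℂ) : PowerSeries ℂ := 1 - C a * X

/-- `1 + a X + a ^ 2 X ^ 2 + ...` -/
noncomputable def geo (a : ℂ) : PowerSeries ℂ := mk fun l => a ^ l

lemma lin_mul_geo (a : ℂ) : lin a * geo a = 1 := by
  unfold lin geo
  rw [sub_mul, one_mul, mul_assoc]
  ext m
  rw [map_sub, coeff_C_mul, coeff_mk]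
  cases m with
  | zero => simp
  | succ m => rw [coeff_succ_X_mul, coeff_mk, coeff_one, if_neg m.succ_ne_zero, pow_succ']; ring

lemma LD_geo (a : ℂ) : LD (geo a) (fun l => a ^ l) := by
  refine ⟨by simp [geo], ?_⟩
  ext m
  cases m with
  | zero => simp
  | succ m =>
    rw [coeff_succ_X_mul, coeff_derivative, mul_left_comm, coeff_succ_X_mul, coeff_mul,
      Finset.Nat.sum_antidiagonal_eq_sum_range_succ
        (fun i j => coeff i (geo a) * coeff j (mk fun l => a ^ (l + 1)))]
    have : ∀ l ∈ Finset.range m.succ, coeff l (geo a) * coeff (m - l) (mk fun l => a ^ (l + 1)) =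
        a ^ (m + 1) := by
      intro l hl
      rw [Finset.mem_range] at hl
      unfold geo
      rw [coeff_mk, coeff_mk, ← pow_add]
      congr 1; omega
    rw [Finset.sum_congr rfl this, Finset.sum_const, Finset.card_range, nsmul_eq_mul]
    unfold geo
    rw [coeff_mk]
    push_cast
    ring

lemma LD_lin (a : ℂ) : LD (lin a) (fun l => - a ^ l) := by
  refine ⟨by simp [lin], ?_⟩
  have h1 : derivative ℂ (lin a) = - C a := by
    unfold lin
    rw [map_sub, Derivation.map_one_eq_zero, Derivation.leibniz, derivative_C, derivative_X]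
    simp
  have h2 : (mk fun l => - a ^ (l + 1)) = - (C a * geo a) := by
    ext m
    unfold geo
    rw [coeff_mk, map_neg, coeff_C_mul, coeff_mk, pow_succ']
  rw [h1, h2]
  have h3 : lin a * (X * -(C a * geo a)) = - (X * C a * (lin a * geo a)) := by ring
  rw [h3, lin_mul_geo]
  ring

end Pool.Agent.HW3
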