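import Pool.Agent.HW3.Pow

/-!
# Counting functions with pure Weil numbers
-/

set_option autoImplicit false

open PowerSeries

namespace Pool.Agent.HW3

/-- for the primes `p` not dividing `N`: `c (p ^ k)` is the sum of the `(-1) ^ wt j * A p j ^ k`,
with `‖A p j‖ = p ^ (wt j / 2)`; for `p` dividing `N`: `c (p ^ k) = 0` -/
structure Weil (N : ℕ) (c : ℕ → ℂ) {J : Type} [Fintype J] (wt : J → ℕ) (A : ℕ → J → ℂ) : Prop where
  norm : ∀ p : ℕ, p.Prime → ¬ p ∣ N → ∀ j, ‖A p j‖ = (p : ℝ) ^ ((wt j : ℝ) / 2)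
  bad : ∀ p k : ℕ, p.Prime → p ∣ N → 0 < k → c (p ^ k) = 0
  good : ∀ p k : ℕ, p.Prime → ¬ p ∣ N → 0 < k → c (p ^ k) = ∑ j, (-1) ^ wt j * A p j ^ k

/-- `c` has pure Weil numbers -/
def IsPure (N : ℕ) (c : ℕ → ℂ) : Prop :=
  ∃ (J : Type) (_ : Fintype J) (wt : J → ℕ) (A : ℕ → J → ℂ), Weil N c wt A

lemma IsPure.congr {N : ℕ} {c c' : ℕ → ℂ} (h : IsPure N c) (hc : ∀ n, IsPrimePow n → c' n = c n) :
    IsPure N c' := by
  obtain ⟨J, _, wt, A, h⟩ := h
  refine ⟨J, inferInstance, wt, A, h.norm, ?_, ?_⟩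
  · intro p k hp hN hk
    rw [hc _ (hp.isPrimePow.pow hk.ne')]; exact h.bad p k hp hN hk
  · intro p k hp hN hk
    rw [hc _ (hp.isPrimePow.pow hk.ne')]; exact h.good p k hp hN hk

lemma IsPure.zero (N : ℕ) : IsPure N (fun _ => 0) :=
  ⟨Empty, inferInstance, fun _ => 0, fun _ _ => 0, ⟨fun _ _ _ j => j.elim, fun _ _ _ _ _ => rfl,
    fun _ _ _ _ _ => by simp⟩⟩

lemma IsPure.add {N : ℕ} {c c' : ℕ → ℂ} (h : IsPure N c) (h' : IsPure N c') :
    IsPure N (fun n => c n + c' n) := by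
  obtain ⟨J, _, wt, A, h⟩ := h
  obtain ⟨J', _, wt', A', h'⟩ := h'
  refine ⟨J ⊕ J', inferInstance, Sum.elim wt wt', fun p => Sum.elim (A p) (A' p), ?_, ?_, ?_⟩
  · rintro p hp hN (j | j)
    · exact h.norm p hp hN j
    · exact h'.norm p hp hN j
  · intro p k hp hN hk
    rw [h.bad p k hp hN hk, h'.bad p k hp hN hk, add_zero]
  · intro p k hp hN hk
    rw [h.good p k hp hN hk, h'.good p k hp hN hk, Fintype.sum_sum_type]
    rfl

lemma IsPure.mul {N : ℕ} {c c' : ℕ → ℂ} (h : IsPure N c) (h' : IsPure N c') :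
    IsPure N (fun n => c n * c' n) := by
  obtain ⟨J, _, wt, A, h⟩ := h
  obtain ⟨J', _, wt', A', h'⟩ := h'
  refine ⟨J × J', inferInstance, fun j => wt j.1 + wt' j.2, fun p j => A p j.1 * A' p j.2,
    ?_, ?_, ?_⟩
  · rintro p hp hN ⟨j, j'⟩
    have hp0 : (0 : ℝ) < p := by exact_mod_cast hp.pos
    rw [norm_mul, h.norm p hp hN j, h'.norm p hp hN j', ← Real.rpow_add hp0]
    congr 1
    push_cast; ring
  · intro p k hp hN hk
    rw [h.bad p k hp hN hk, zero_mul]
  · intro p k hp hN hk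
    rw [h.good p k hp hN hk, h'.good p k hp hN hk, Finset.sum_mul_sum, Fintype.sum_prod_type]
    refine Finset.sum_congr rfl fun j _ => Finset.sum_congr rfl fun j' _ => ?_
    rw [mul_pow, pow_add]; ring

lemma IsPure.q {N : ℕ} {c : ℕ → ℂ} (h : IsPure N c) : IsPure N (fun n => (n : ℂ) * c n) := by
  obtain ⟨J, _, wt, A, h⟩ := h
  refine ⟨J, inferInstance, fun j => wt j + 2, fun p j => p * A p j, ?_, ?_, ?_⟩
  · rintro p hp hN j
    have hp0 : (0 : ℝ) < p := by exact_mod_cast hp.pos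
    rw [norm_mul, h.norm p hp hN j, Complex.norm_natCast]
    push_cast
    rw [add_div, Real.rpow_add hp0, mul_comm]
    norm_num
  · intro p k hp hN hk
    rw [h.bad p k hp hN hk, mul_zero]
  · intro p k hp hN hk
    rw [h.good p k hp hN hk, Finset.mul_sum]
    refine Finset.sum_congr rfl fun j _ => ?_
    rw [mul_pow, pow_add]; push_cast; ring

/-- the indicator of the numbers prime to `N` -/
noncomputable def ind (N n : ℕ) : ℂ := if n.Coprime N then 1 else 0

lemma ind_good {N p k : ℕ} (hp : p.Prime) (hN : ¬ p ∣ N) : ind N (p ^ k) = 1 := by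
  unfold ind
  rw [if_pos]
  exact Nat.Coprime.pow_left k ((Nat.Prime.coprime_iff_not_dvd hp).2 hN)

lemma ind_bad {N p k : ℕ} (hp : p.Prime) (hN : p ∣ N) (hk : 0 < k) : ind N (p ^ k) = 0 := by
  unfold ind
  rw [if_neg]
  intro h
  rw [Nat.coprime_pow_left_iff hk, Nat.Prime.coprime_iff_not_dvd hp] at h
  exact h hN

lemma isPure_ind (N : ℕ) : IsPure N (ind N) := by
  refine ⟨Unit, inferInstance, fun _ => 0, fun _ _ => 1, ?_, ?_, ?_⟩
  · intro p hp hN j; simp
  · intro p k hp hN hk; exact ind_bad hp hN hk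
  · intro p k hp hN hk
    rw [ind_good hp hN]; simp

section sym

variable {J : Type} [Fintype J] (wt : J → ℕ)

/-- the factor of a Weil number -/
noncomputable def fac (w : ℕ) (a : ℂ) : PowerSeries ℂ := if Odd w then lin a else geo a

lemma LD_fac (w : ℕ) (a : ℂ) : LD (fac w a) (fun l => (-1) ^ w * a ^ l) := by
  unfold fac
  split_ifs with h
  · refine (LD_lin a).congr fun l _ => ?_
    rw [h.neg_one_pow]; ring
  · refine (LD_geo a).congr fun l _ => ?_
    rw [(Nat.not_odd_iff_even.1 h).neg_one_pow]; ring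

lemma coeff_fac (w : ℕ) (a : ℂ) (i : ℕ) :
    coeff i (fac w a) = if Odd w ∧ 1 < i then 0 else (-1) ^ (w * i) * a ^ i := by
  unfold fac
  by_cases h : Odd w
  · rw [if_pos h]
    rcases i with _ | _ | i
    · simp [lin]
    · unfold lin
      rw [map_sub, coeff_C_mul, coeff_X, coeff_one]
      simp [h.neg_one_pow]
    · unfold lin
      rw [map_sub, coeff_C_mul, coeff_X, coeff_one]
      simp [h]
  · rw [if_neg h]
    have h' := Nat.not_odd_iff_even.1 h
    rw [if_neg (fun h2 => h h2.1), pow_mul, h'.neg_one_pow]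
    unfold geo
    rw [coeff_mk]; simp

open Classical in
/-- the index set of the Weil numbers of the symmetric power -/
noncomputable def symIdx (m : ℕ) : Finset (J →₀ ℕ) :=
  (Finset.finsuppAntidiag Finset.univ m).filter fun l => ∀ j, Odd (wt j) → l j ≤ 1

lemma coeff_prod_fac (a : J → ℂ) (m : ℕ) :
    coeff m (∏ j, fac (wt j) (a j)) =
      ∑ l ∈ symIdx wt m, (-1) ^ (∑ j, wt j * l j) * ∏ j, a j ^ l j := by
  classical
  rw [coeff_prod]
  unfold symIdx
  rw [Finset.sum_filter]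
  refine Finset.sum_congr rfl fun l _ => ?_
  split_ifs with h
  · rw [← Finset.prod_pow_eq_pow_sum, ← Finset.prod_mul_distrib]
    refine Finset.prod_congr rfl fun j _ => ?_
    rw [coeff_fac, if_neg]
    rintro ⟨h1, h2⟩
    exact absurd (h j h1) (by omega)
  · push Not at h
    obtain ⟨j, hj, hl⟩ := h
    refine Finset.prod_eq_zero (Finset.mem_univ j) ?_
    rw [coeff_fac, if_pos ⟨hj, hl⟩]

end sym

/-- the symmetric powers -/
theorem IsPure.sym {N : ℕ} {x : ℕ → ℂ} (h : IsPure N x) {σ : ℕ → ℕ → ℂ}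
    (h0 : ∀ n, IsPrimePow n → σ 0 n = 1)
    (hσ : ∀ m n : ℕ, IsPrimePow n →
      (m : ℂ) * σ m n = ∑ l ∈ Finset.range m, x (n ^ (l + 1)) * σ (m - (l + 1)) n) (m : ℕ) :
    IsPure N (fun n => σ m n * ind N n) := by
  obtain ⟨J, _, wt, A, h⟩ := h
  refine ⟨symIdx wt m, inferInstance, fun l => ∑ j, wt j * l.1 j,
    fun p l => ∏ j, A p j ^ l.1 j, ?_, ?_, ?_⟩
  · rintro p hp hN ⟨l, hl⟩
    have hp0 : (0 : ℝ) < p := by exact_mod_cast hp.pos
    dsimp only
    rw [norm_prod]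
    push_cast
    rw [Finset.sum_div, Real.rpow_sum_of_pos hp0]
    refine Finset.prod_congr rfl fun j _ => ?_
    rw [norm_pow, h.norm p hp hN j, ← Real.rpow_natCast, ← Real.rpow_mul hp0.le]
    congr 1
    ring
  · intro p k hp hN hk
    rw [ind_bad hp hN hk, mul_zero]
  · intro p k hp hN hk
    rw [ind_good hp hN, mul_one]
    have hpk : IsPrimePow (p ^ k) := hp.isPrimePow.pow hk.ne'
    have hLD : LD (∏ j, fac (wt j) (A p j ^ k))
        (fun l => ∑ j, (-1) ^ wt j * (A p j ^ k) ^ l) :=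
      LD.prod Finset.univ fun j _ => LD_fac (wt j) (A p j ^ k)
    have key := hLD.unique (σ := fun m => σ m (p ^ k)) (h0 _ hpk) (fun m _ => by
      rw [hσ m _ hpk]
      refine Finset.sum_congr rfl fun l _ => ?_
      congr 1
      rw [← pow_mul, h.good p _ hp hN (Nat.mul_pos hk l.succ_pos)]
      refine Finset.sum_congr rfl fun j _ => ?_
      rw [pow_mul]) m
    rw [key, coeff_prod_fac, ← Finset.sum_coe_sort (symIdx wt m)]
    refine Finset.sum_congr rfl fun l _ => ?_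
    congr 1
    rw [← Finset.prod_pow]
    refine Finset.prod_congr rfl fun j _ => ?_
    rw [← pow_mul, ← pow_mul, mul_comm]

end Pool.Agent.HW3
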